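import Pool.Agent.J6H7.GX.Local
import Pool.Agent.Helper600R2.Cnt.Null

/-!
# No derivation of the empty disjunction, given a partial partition for which all formulas have
# shallow trees

(Modelled on `Helper600R2.Cnt.Main` and `J6H27.EF.Core`.)
-/

set_option linter.unusedSectionVars false
set_option autoImplicit false

namespace Pool.Agent.J6H7.GX

open Finset Pool.Agent.Helper600R2 Pool.Agent.Helper600R2.Cnt

section degree

variable {Vt E : Type*} [Fintype Vt] [Fintype E] [DecidableEq Vt] (hd tl : E → Vt) {q : ℕ}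
  [NeZero q] {K : Type*} [Field K] (ψ : AddChar (ZMod q) K)

/-- one inference in the degree argument -/
theorem null_step (hψ : ψ.IsPrimitive) (b : Vt → ZMod q)
    (hVt : 3 < Fintype.card Vt) (w k : ℕ)
    (hconn : ∀ u : Vt → ZMod q, dd hd tl u = 0 → (nsupp u).card < Fintype.card Vt → u = 0)
    (hexp : ∀ u : Vt → ZMod q, (nsupp (dd hd tl u)).card ≤ 2 * ((k + 1) * w) →
      3 * (nsupp u).card < 2 * Fintype.card Vt → 3 * (nsupp u).card < Fintype.card Vt)
    (f : (E → ZMod q) → Bool) (hf : toK K f ∈ DC ψ w)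
    (P Q : Finset ((E → ZMod q) → Bool)) (hPQ : P.card + Q.card ≤ k)
    (hP : ∀ g ∈ P, toK K g ∈ DC ψ w ∧ 1 - toK K g ∈ NF hd tl ψ b w)
    (hQ : ∀ g ∈ Q, toK K g ∈ DC ψ w ∧ toK K g ∈ NF hd tl ψ b w)
    (hstep : ∀ z, (∀ g ∈ P, g z = true) → (∀ g ∈ Q, g z = false) → f z = true) :
    (1 : (E → ZMod q) → K) - toK K f ∈ NF hd tl ψ b w := by
  classical
  obtain ⟨R, hR1, hR2, hR3⟩ := exists_reduction hd tl ψ hψ b ((k + 1) * w)
    (by omega) hconn hexp
  have hw : w ≤ (k + 1) * w := Nat.le_mul_of_pos_left w (Nat.succ_pos k)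
  have hdown : ∀ g ∈ DC ψ w, g ∈ NF hd tl ψ b ((k + 1) * w) → g ∈ NF hd tl ψ b w := by
    intro g hg hg'
    have h1 := hR2 w hw g hg
    rw [hR1 g hg', sub_zero] at h1
    exact h1
  have hone : (1 : (E → ZMod q) → K) - toK K f ∈ DC ψ w :=
    Submodule.sub_mem _ (one_mem_DC ψ w) hf
  apply hdown _ hone
  obtain ⟨a1, a2⟩ := prod_null hd tl ψ b w P (fun g => toK K g)
    (fun g hg => (hP g hg).1) (fun g hg => (hP g hg).2)
  obtain ⟨b1, b2⟩ := prod_null hd tl ψ b w Q (fun g => 1 - toK K g)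
    (fun g hg => Submodule.sub_mem _ (one_mem_DC ψ w) (hQ g hg).1)
    (fun g hg => by rw [sub_sub_cancel]; exact (hQ g hg).2)
  have h1 : (1 : (E → ZMod q) → K) -
      (∏ g ∈ P, toK K g) * (∏ g ∈ Q, (1 - toK K g)) ∈
      NF hd tl ψ b (P.card * w + Q.card * w) := by
    have h4 : (1 : (E → ZMod q) → K) -
        (∏ g ∈ P, toK K g) * (∏ g ∈ Q, (1 - toK K g)) =
        (1 - ∏ g ∈ P, toK K g) * (∏ g ∈ Q, (1 - toK K g)) +
          (1 - ∏ g ∈ Q, (1 - toK K g)) := by
      ring
    rw [h4]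
    exact Submodule.add_mem _ (NF_mul hd tl ψ a2 b1) (NF_mono hd tl ψ (by omega) b2)
  have h2 := NF_mul hd tl ψ h1 hone
  have h3 : ((1 : (E → ZMod q) → K) -
      (∏ g ∈ P, toK K g) * (∏ g ∈ Q, (1 - toK K g))) * (1 - toK K f) =
      1 - toK K f := by
    funext z
    by_cases hz : f z = true
    · simp [toK, hz]
    · have h5 : ((∏ g ∈ P, toK K g) * (∏ g ∈ Q, (1 - toK K g))) z = 0 := by
        rw [Pi.mul_apply, Finset.prod_apply, Finset.prod_apply]
        by_cases hPz : ∀ g ∈ P, g z = true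
        · have : ∃ g ∈ Q, g z = true := by
            by_contra hcon
            push Not at hcon
            exact hz (hstep z hPz (fun g hg => by simpa using hcon g hg))
          obtain ⟨g, hg, hgz⟩ := this
          rw [Finset.prod_eq_zero (s := Q) hg (by simp [toK, hgz]), mul_zero]
        · push Not at hPz
          obtain ⟨j, hj, hjz⟩ := hPz
          rw [Finset.prod_eq_zero (s := P) hj (by simp [toK, hjz]), zero_mul]
      simp only [Pi.mul_apply, Pi.sub_apply, Pi.one_apply] at h5 ⊢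
      rw [h5]
      ring
  rw [h3] at h2
  refine NF_mono hd tl ψ ?_ h2
  have : (P.card + Q.card) * w ≤ k * w := Nat.mul_le_mul_right w hPQ
  nlinarith

/-- the constant function `false` is not almost always true -/
theorem null_final (hψ : ψ.IsPrimitive) (b : Vt → ZMod q)
    (hVt : 3 < Fintype.card Vt) (w k : ℕ)
    (hconn : ∀ u : Vt → ZMod q, dd hd tl u = 0 → (nsupp u).card < Fintype.card Vt → u = 0)
    (hexp : ∀ u : Vt → ZMod q, (nsupp (dd hd tl u)).card ≤ 2 * ((k + 1) * w) →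
      3 * (nsupp u).card < 2 * Fintype.card Vt → 3 * (nsupp u).card < Fintype.card Vt)
    (f : (E → ZMod q) → Bool) (hf : (1 : (E → ZMod q) → K) - toK K f ∈ NF hd tl ψ b w) :
    ∃ z, f z = true := by
  obtain ⟨R, hR1, hR2, hR3⟩ := exists_reduction hd tl ψ hψ b ((k + 1) * w)
    (by omega) hconn hexp
  have hw : w ≤ (k + 1) * w := Nat.le_mul_of_pos_left w (Nat.succ_pos k)
  by_contra hcon
  push Not at hcon
  have h0 : toK K f = 0 := by
    funext z
    simp [toK, hcon z]
  rw [h0, sub_zero] at hf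
  exact hR3 (hR1 1 (NF_mono hd tl ψ hw hf))

end degree

section main

variable {Vt Ed : Type} [Fintype Vt] [Fintype Ed] [DecidableEq Vt] [DecidableEq Ed]
  (hd tl : Ed → Vt) {q : ℕ} [NeZero q] {K : Type*} [Field K] (ψ : AddChar (ZMod q) K)
  {p : ℕ} [Fact p.Prime] [CharP K p]

/-- the degree used in the final argument -/
def wx (k p G d κ : ℕ) : ℕ :=
  8 * k + 12 + G * (p * AA k p G d) + AA k p G d + κ * AA k p G d

lemma clause_forced {N κ : ℕ} {E : Type} (X : ExtSys p q N κ E) {φ : Fm p (XVar q N E κ)}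
    (h : IsClause φ) :
    ∃ (t : ℕ) (φs : Fin t → Fm p (XVar q N E κ)) (u : Fin N), φ = .or t φs ∧
      ∀ (β : Fin κ → Bool) (tvf : MF N → Bool) (k : ℕ) (B : Finset (Fin N)), B.card = q →
        u ∈ B → ∀ π, IsPP q π → B ∈ π → ∃ j, W q k (rd (bk X β) tvf (φs j)) true π := by
  obtain ⟨t, φs, rfl, h | h⟩ := h
  · obtain ⟨v, hv⟩ := h
    refine ⟨t, φs, v, rfl, ?_⟩
    intro β tvf k B hB hvB π _ hBπ
    obtain ⟨j, hj⟩ := hv ⟨B, hB⟩ hvB
    refine ⟨j, ?_⟩
    rw [hj]
    simp only [rd, bk, W, if_true]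
    exact hBπ
  · obtain ⟨e, f, hef, hdis, ⟨j, hj⟩, ⟨j', hj'⟩⟩ := h
    obtain ⟨u, hue, huf⟩ := Finset.not_disjoint_iff.mp hdis
    refine ⟨t, φs, u, rfl, ?_⟩
    intro β tvf k B hB huB π hπ hBπ
    have key : ∀ g : Var q N, u ∈ g.1 → B ≠ g.1 →
        W q k (rd (p := p) (bk X β) tvf (.neg (.var (.inl g)))) true π := by
      intro g hug hne
      simp only [rd, bk, W, Bool.not_true, Bool.false_eq_true, if_false]
      refine ⟨fun hg => hne (hπ.eq_of_mem hBπ hg huB hug), Or.inr ?_⟩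
      exact Finset.not_disjoint_iff.mpr ⟨u, hug, mem_cov.mpr ⟨B, hBπ, huB⟩⟩
    by_cases hBe : B = e.1
    · have hBf : B ≠ f.1 := by
        intro h
        exact hef (Subtype.ext (hBe.symm.trans h))
      refine ⟨j', ?_⟩
      rw [hj']
      exact key f huf hBf
    · refine ⟨j, ?_⟩
      rw [hj]
      exact key e hue hBe

theorem no_der (hψ : ψ.IsPrimitive) (hqK : (q : K) ≠ 0) (hVt : 3 < Fintype.card Vt)
    (hinc : ∀ v : Vt, (inc hd tl v).card ≤ 4) (c d k G κ M : ℕ) (hk : 1 ≤ k)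
    (hconn : ∀ u : Vt → ZMod q, dd hd tl u = 0 → (nsupp u).card < Fintype.card Vt → u = 0)
    (hexp : ∀ u : Vt → ZMod q,
      (nsupp (dd hd tl u)).card ≤ 2 * ((2 * c + 2 + 1) * wx k p G d κ) →
      3 * (nsupp u).card < 2 * Fintype.card Vt → 3 * (nsupp u).card < Fintype.card Vt)
    {N : ℕ} (ρ : PS N) (hρ : IsPP q ρ)
    (hN : Fintype.card Ed * (2 * (q - 1)) + q * ρ.card ≤ N) {E : Type}
    (X : ExtSys p q N κ E) (𝒰 : Finset (Fm p (XVar q N E κ))) (h𝒰 : ClosedFm 𝒰)
    (hdepth : ∀ φ ∈ 𝒰, φ.depth ≤ d) (hG : ∀ φ ∈ 𝒰, φ.tops.card ≤ G)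
    (hroom : q * (ρ.card + 2 * k + k * d) ≤ N)
    (hT : ∀ β, ∀ χ ∈ fam (bk X β) 𝒰, HasT q k χ ρ k)
    (hL : ∀ φ ∈ 𝒰, TreeAx X M φ → ∀ β : Fin κ → Bool, ∃ T : DTree N, Few q T ρ k ∧
      ∀ (π : PS N) (b : Bool), IsPP q π → T.Out π b → Det X β π φ true)
    (hD : κ ≠ 0 → ∀ j, X.D j ∈ 𝒰)
    (f₀ : Fin 0 → Fm p (XVar q N E κ)) : ¬ EDer c M X 𝒰 (.or 0 f₀) := by
  classical
  obtain ⟨b, y, hGood⟩ := exists_good hd tl ψ hψ hqK hVt hinc N ρ hρ hN
  -- trees exist for all values
  have hrdT : ∀ β, ∀ z, ∀ φ ∈ 𝒰, HasT q k (rd (bk X β) (tv q k ρ (y z)) φ) ρ k := by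
    intro β z φ hφ
    rw [rd_eq_subst (fun b => tv_cst (y z) b)]
    exact hT β _ (mem_fam _ hφ _)
  have hrdD : ∀ β, ∀ z, ∀ φ ∈ 𝒰, (rd (bk X β) (tv q k ρ (y z)) φ).dep ≤ d := by
    intro β z φ hφ
    rw [rd_eq_subst (fun b => tv_cst (y z) b)]
    exact (subst_dep _ (bk_leaf X β) _ φ).trans (hdepth φ hφ)
  have hroom' : ∀ β, ∀ (z : Ed → ZMod q), ∀ φ ∈ 𝒰,
      q * (ρ.card + 2 * k + k * (rd (bk X β) (tv q k ρ (y z)) φ).dep) ≤ N := by
    intro β z φ hφ
    refine (Nat.mul_le_mul_left q ?_).trans hroom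
    have h1 := Nat.mul_le_mul_left k (hrdD β z φ hφ)
    omega
  -- the guess
  have hfix : ∀ z, ∃ β : Fin κ → Bool,
      (∀ j, β j = Vz q k ρ (bk X β) y z (X.D j)) ∧
      ∀ β' : Fin κ → Bool, (∀ j, β' j = Vz q k ρ (bk X β') y z (X.D j)) → β' = β := by
    intro z
    refine exists_fix (fun β j => Vz q k ρ (bk X β) y z (X.D j)) ?_
    intro β β' j h
    show tv q k ρ (y z) _ = tv q k ρ (y z) _
    rw [rd_D X _ j h]
  choose βz hβ1 hβ2 using hfix
  have hgdeg : ∀ (β : Fin κ → Bool) (j : Fin κ),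
      toK K (fun z => Vz q k ρ (bk X β) y z (X.D j)) ∈
        J (ι := Ed) (α := ZMod q) K (AA k p G d) := by
    intro β j
    have hj : X.D j ∈ 𝒰 := hD (by have := j.2; omega) j
    exact (Vz_deg hGood h𝒰 G hG d).1 _ hj (hdepth _ hj)
  -- the truth values
  let f : Fm p (XVar q N E κ) → (Ed → ZMod q) → Bool :=
    fun φ z => Vz q k ρ (bk X (βz z)) y z φ
  have hdeg : ∀ φ ∈ 𝒰, toK K (f φ) ∈ DC ψ (wx k p G d κ) := by
    intro φ hφ
    apply J_le_DC ψ hψ hqK
    have h1 := guess_J (K := K) (g := fun β j z => Vz q k ρ (bk X β) y z (X.D j)) hβ1 hβ2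
      (AA k p G d) (AA k p G d) hgdeg
      (fun β => toK K (fun z => Vz q k ρ (bk X β) y z φ))
      (fun β => (Vz_deg hGood h𝒰 G hG d).1 φ hφ (hdepth _ hφ))
    have h2 : toK K (f φ) = fun z => (fun β : Fin κ → Bool =>
        toK K (fun z => Vz q k ρ (bk X β) y z φ)) (βz z) z := rfl
    rw [h2]
    refine J_mono ?_ h1
    unfold wx
    omega
  -- failure functions
  have hfail : ∀ φ ∈ 𝒰, ∀ C : (Fin κ → Bool) → MF N → DT N (PS N),
      (∀ β χ, (C β χ).HtLe (k + k)) →
      toK K (fun z => ((C (βz z) (rd (bk X (βz z)) (tv q k ρ (y z)) φ)).eval (y z)).isNone) ∈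
        DC ψ (wx k p G d κ) ∧
      toK K (fun z => ((C (βz z) (rd (bk X (βz z)) (tv q k ρ (y z)) φ)).eval (y z)).isNone) ∈
        NF hd tl ψ b (wx k p G d κ) := by
    intro φ hφ C hC
    have h0 := fun β : Fin κ → Bool => fail_null (p := p) (blk := bk X β) (k := k) hψ hqK hGood
      h𝒰 G hG d hdepth φ hφ (k + k) (C β) (hC β)
    have h2 : toK K (fun z =>
        ((C (βz z) (rd (bk X (βz z)) (tv q k ρ (y z)) φ)).eval (y z)).isNone) =
      fun z => (fun β : Fin κ → Bool => toK K (fun z =>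
        ((C β (rd (bk X β) (tv q k ρ (y z)) φ)).eval (y z)).isNone)) (βz z) z := rfl
    rw [h2]
    constructor
    · apply J_le_DC ψ hψ hqK
      refine J_mono ?_ (guess_J (K := K)
        (g := fun β j z => Vz q k ρ (bk X β) y z (X.D j)) hβ1 hβ2
        (AA k p G d) _ hgdeg _ (fun β => (h0 β).2))
      unfold wx
      omega
    · refine NF_mono hd tl ψ ?_ (guess_NF hψ hqK
        (g := fun β j z => Vz q k ρ (bk X β) y z (X.D j)) hβ1 hβ2
        (AA k p G d) _ hgdeg _ (fun β => (h0 β).1))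
      unfold wx
      omega
  -- the outermost connectives are respected
  have hresp : ∀ z, ∀ χ ∈ 𝒰,
      ((ck q k ρ (rd (bk X (βz z)) (tv q k ρ (y z)) χ)).eval (y z)).isNone = false →
      RespAt (fun φ => f φ z) χ := by
    intro z χ hχU h1
    cases χ with
    | var a => trivial
    | md i t φs => trivial
    | neg φ =>
      have hφ := h𝒰.neg φ hχU
      exact check_neg (hGood.pp z) (hGood.ext z) (hroom' _ z φ hφ) (hrdT _ z φ hφ) h1
    | or t φs =>
      exact check_or (hGood.pp z) (hGood.ext z) (hroom' _ z _ hχU) (hrdT _ z _ hχU)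
        (fun j => hrdT _ z _ (h𝒰.or t φs hχU j)) h1
  -- steps which only use the connectives of two formulas
  have hckF : ∀ χ : MF N, (ck q k ρ χ).HtLe (k + k) := fun χ => ck_ht χ
  have main : ∀ φ, EDer c M X 𝒰 φ →
      (1 : (Ed → ZMod q) → K) - toK K (f φ) ∈ NF hd tl ψ b (wx k p G d κ) := by
    intro φ hφ
    induction hφ with
    | @clause φ hmem hax =>
      obtain ⟨t, φs, u, hLi, hforced⟩ := clause_forced X hax
      subst hLi
      refine null_step hd tl ψ hψ b hVt (wx k p G d κ) (2 * c + 2) hconn hexp _ (hdeg _ hmem) ∅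
        {fun z => ((ckA q k ρ u (rd (bk X (βz z)) (tv q k ρ (y z)) (.or t φs))).eval
          (y z)).isNone} (by simp) (by simp) ?_ ?_
      · intro g hg
        rw [mem_singleton] at hg
        subst hg
        exact hfail _ hmem (fun _ => ckA q k ρ u) (fun _ χ => (ckA_ht u χ).mono (by omega))
      · intro z _ hQz
        have h1 := hQz _ (mem_singleton_self _)
        exact check_ax hk (hGood.pp z) (hGood.ext z) (hroom' _ z _ hmem) (hrdT _ z _ hmem) u
          (hforced (βz z) (tv q k ρ (y z)) k) h1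
    | @tree φ hmem hax =>
      choose T hT1 hT2 using hL φ hmem hax
      refine null_step hd tl ψ hψ b hVt (wx k p G d κ) (2 * c + 2) hconn hexp _ (hdeg _ hmem) ∅
        {fun z => ((ckT q k ρ (T (βz z)) (rd (bk X (βz z)) (tv q k ρ (y z)) φ)).eval
          (y z)).isNone} (by simp) (by simp) ?_ ?_
      · intro g hg
        rw [mem_singleton] at hg
        subst hg
        exact hfail _ hmem (fun β => ckT q k ρ (T β)) (fun β χ => ckT_ht (T β) χ)
      · intro z _ hQz
        have h1 := hQz _ (mem_singleton_self _)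
        exact check_tree (hGood.pp z) (hGood.ext z) X (βz z) (tv q k ρ (y z)) (hT1 (βz z))
          (hT2 (βz z)) (hroom' _ z _ hmem) (hrdT _ z _ hmem) h1
    | def₁ j hmem =>
      have hn : Fm.neg (X.D j) ∈ 𝒰 := by simpa using h𝒰.or _ _ hmem 1
      refine null_step hd tl ψ hψ b hVt (wx k p G d κ) (2 * c + 2) hconn hexp _ (hdeg _ hmem) ∅
        (({.or 2 ![.var (.inr (.inr j)), .neg (X.D j)], .neg (X.D j)} :
          Finset (Fm p (XVar q N E κ))).image (fun χ z =>
          ((ck q k ρ (rd (bk X (βz z)) (tv q k ρ (y z)) χ)).eval (y z)).isNone)) ?_ (by simp) ?_ ?_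
      · have h1 := card_image_le (s := ({.or 2 ![.var (.inr (.inr j)), .neg (X.D j)],
          .neg (X.D j)} : Finset (Fm p (XVar q N E κ)))) (f := fun (χ : Fm p (XVar q N E κ))
            (z : Ed → ZMod q) =>
          ((ck q k ρ (rd (bk X (βz z)) (tv q k ρ (y z)) χ)).eval (y z)).isNone)
        have h2 := card_le_two (a := (.or 2 ![.var (.inr (.inr j)), .neg (X.D j)] :
          Fm p (XVar q N E κ))) (b := .neg (X.D j))
        rw [card_empty]
        omega
      · intro g hg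
        obtain ⟨χ, hχ, rfl⟩ := mem_image.mp hg
        have hχU : χ ∈ 𝒰 := by
          rcases mem_insert.1 hχ with rfl | hχ
          · exact hmem
          · rw [mem_singleton.1 hχ]; exact hn
        exact hfail χ hχU (fun _ => ck q k ρ) (fun _ => hckF)
      · intro z _ hQz
        have r1 := hresp z _ hmem (hQz _ (mem_image_of_mem _ (mem_insert_self _ _)))
        have r2 := hresp z _ hn (hQz _ (mem_image_of_mem _ (mem_insert_of_mem
          (mem_singleton_self _))))
        have r3 : f (.var (.inr (.inr j))) z = βz z j := tv_cst (y z) (βz z j)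
        have r4 : βz z j = f (X.D j) z := hβ1 z j
        have r1' : f (.or 2 ![.var (.inr (.inr j)), .neg (X.D j)]) z = true ↔
          ∃ i, f (![.var (.inr (.inr j)), .neg (X.D j)] i) z = true := r1
        have r2' : f (.neg (X.D j)) z = !(f (X.D j) z) := r2
        rw [r1']
        cases hb : f (X.D j) z with
        | true => exact ⟨0, by show f (.var (.inr (.inr j))) z = true; rw [r3, r4, hb]⟩
        | false => exact ⟨1, by show f (.neg (X.D j)) z = true; rw [r2', hb]; rfl⟩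
    | def₂ j hmem =>
      have hn : Fm.neg (.var (.inr (.inr j))) ∈ 𝒰 := by simpa using h𝒰.or _ _ hmem 0
      refine null_step hd tl ψ hψ b hVt (wx k p G d κ) (2 * c + 2) hconn hexp _ (hdeg _ hmem) ∅
        (({.or 2 ![.neg (.var (.inr (.inr j))), X.D j], .neg (.var (.inr (.inr j)))} :
          Finset (Fm p (XVar q N E κ))).image (fun χ z =>
          ((ck q k ρ (rd (bk X (βz z)) (tv q k ρ (y z)) χ)).eval (y z)).isNone)) ?_ (by simp) ?_ ?_
      · have h1 := card_image_le (s := ({.or 2 ![.neg (.var (.inr (.inr j))), X.D j],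
          .neg (.var (.inr (.inr j)))} : Finset (Fm p (XVar q N E κ))))
            (f := fun (χ : Fm p (XVar q N E κ)) (z : Ed → ZMod q) =>
          ((ck q k ρ (rd (bk X (βz z)) (tv q k ρ (y z)) χ)).eval (y z)).isNone)
        have h2 := card_le_two (a := (.or 2 ![.neg (.var (.inr (.inr j))), X.D j] :
          Fm p (XVar q N E κ))) (b := .neg (.var (.inr (.inr j))))
        rw [card_empty]
        omega
      · intro g hg
        obtain ⟨χ, hχ, rfl⟩ := mem_image.mp hg
        have hχU : χ ∈ 𝒰 := by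
          rcases mem_insert.1 hχ with rfl | hχ
          · exact hmem
          · rw [mem_singleton.1 hχ]; exact hn
        exact hfail χ hχU (fun _ => ck q k ρ) (fun _ => hckF)
      · intro z _ hQz
        have r1 := hresp z _ hmem (hQz _ (mem_image_of_mem _ (mem_insert_self _ _)))
        have r2 := hresp z _ hn (hQz _ (mem_image_of_mem _ (mem_insert_of_mem
          (mem_singleton_self _))))
        have r3 : f (.var (.inr (.inr j))) z = βz z j := tv_cst (y z) (βz z j)
        have r4 : βz z j = f (X.D j) z := hβ1 z j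
        have r1' : f (.or 2 ![.neg (.var (.inr (.inr j))), X.D j]) z = true ↔
          ∃ i, f (![.neg (.var (.inr (.inr j))), X.D j] i) z = true := r1
        have r2' : f (.neg (.var (.inr (.inr j)))) z = !(f (.var (.inr (.inr j))) z) := r2
        rw [r1']
        cases hb : f (X.D j) z with
        | true => exact ⟨1, hb⟩
        | false =>
          exact ⟨0, by
            show f (.neg (.var (.inr (.inr j)))) z = true
            rw [r2', r3, r4, hb]; rfl⟩
    | @inf φ P Q hmem hP hQ hQU hder hinf ih =>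
      refine null_step hd tl ψ hψ b hVt (wx k p G d κ) (2 * c + 2) hconn hexp _ (hdeg _ hmem)
        (P.image (fun χ z => f χ z))
        (Q.image (fun χ z => ((ck q k ρ (rd (bk X (βz z)) (tv q k ρ (y z)) χ)).eval
          (y z)).isNone)) ?_ ?_ ?_ ?_
      · have h1 := card_image_le (s := P)
          (f := fun (χ : Fm p (XVar q N E κ)) (z : Ed → ZMod q) => f χ z)
        have h2 := card_image_le (s := Q) (f := fun (χ : Fm p (XVar q N E κ))
          (z : Ed → ZMod q) => ((ck q k ρ (rd (bk X (βz z)) (tv q k ρ (y z)) χ)).eval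
          (y z)).isNone)
        omega
      · intro g hg
        obtain ⟨χ, hχ, rfl⟩ := mem_image.mp hg
        exact ⟨hdeg χ (hder χ hχ).mem, ih χ hχ⟩
      · intro g hg
        obtain ⟨χ, hχ, rfl⟩ := mem_image.mp hg
        exact hfail χ (hQU hχ) (fun _ => ck q k ρ) (fun _ => hckF)
      · intro z hPz hQz
        apply hinf (fun φ => f φ z) (Vz_respMod z)
        · intro χ hχ
          exact hresp z χ (hQU hχ) (hQz _ (mem_image_of_mem _ hχ))
        · intro χ hχ
          exact hPz _ (mem_image_of_mem (fun χ z => f χ z) hχ)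
  intro hder
  obtain ⟨z, hz⟩ := null_final hd tl ψ hψ b hVt (wx k p G d κ) (2 * c + 2) hconn hexp _
    (main _ hder)
  have h1 : tv q k ρ (y z) (rd (bk X (βz z)) (tv q k ρ (y z)) (.or 0 f₀)) = true := hz
  rw [tv_iff] at h1
  obtain ⟨σ, _, hσ⟩ := h1
  obtain ⟨j, _⟩ := W_or_true.mp hσ
  exact j.elim0

end main

end Pool.Agent.J6H7.GX
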