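import Pool.Agent.Helper600R2.Cnt.Defs
import Pool.Agent.Helper600R2.Cnt.PP

/-!
# Constant-depth Extended Frege systems: shallow and further extension variables

Formulas `Fm p α` over the variables `α` with negation, unbounded disjunction and `MOD p` gates,
their depth, their subformulas (`sub`) and their maximal `MOD` subformulas (`tops`) are those of
`Helper600R2.Cnt.Defs`. The variables of the counting principle modulo `q` on `N` points are the
`q`-element subsets of `Fin N` (`Var q N`). A partial partition (`IsPP q π`) is a set `π : PS N` of
pairwise disjoint `q`-element sets; `cov π` is the set of the points that it covers.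

Here extension variables are added. There are

* any number of shallow extension variables `e : E`, each of which stands for a decision tree of
  depth at most `N / M`; the tree asks which sets of the partition contain certain points,
* `k` further extension variables, which stand for arbitrary formulas.
-/

set_option autoImplicit false

namespace Pool.Agent.J6H7.GX

open Finset Pool.Agent.Helper600R2.Cnt

/-- Decision trees with Boolean outputs. A node asks which set `B` of the partition contains the
point `v`; the computation goes on with the subtree `ch B`. -/
inductive DTree (N : ℕ) : Type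
  | leaf (b : Bool) : DTree N
  | ask (v : Fin N) (ch : Finset (Fin N) → DTree N) : DTree N

/-- The depth: the maximal number of questions. -/
def DTree.depth {N : ℕ} : DTree N → ℕ
  | .leaf _ => 0
  | .ask _ ch => univ.sup (fun B => (ch B).depth) + 1

/-- The partial partition `π` answers all questions on the path on which the tree is led by these
answers, and the output is `b`. -/
def DTree.Out {N : ℕ} : DTree N → PS N → Bool → Prop
  | .leaf c, _, b => c = b
  | .ask v ch, π, b => ∃ B ∈ π, v ∈ B ∧ (ch B).Out π b

/-- All variables in the formula have the property `P`. -/
def Uses {p : ℕ} {α : Type} (P : α → Prop) : Fm p α → Prop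
  | .var x => P x
  | .neg φ => Uses P φ
  | .or _ φs => ∀ j, Uses P (φs j)
  | .md _ _ φs => ∀ j, Uses P (φs j)

/-- The set of formulas is closed under subformulas. -/
def SubClosed {p : ℕ} {α : Type} (𝒰 : Finset (Fm p α)) : Prop := ∀ φ ∈ 𝒰, φ.sub ⊆ 𝒰

/-- The variables: the variables of the counting principle, the shallow extension variables
(`e : E`), and the `k` further extension variables. -/
abbrev XVar (q N : ℕ) (E : Type) (k : ℕ) : Type := Var q N ⊕ (E ⊕ Fin k)

variable {p q N k : ℕ} {E : Type}

/-- The definitions of the extension variables. The further extension variable `j` stands for the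
formula `D j`. The shallow extension variable `e` stands for the decision tree `tree e β`, where
`β : Fin k → Bool` are the truth values of the further extension variables. The definitions are
acyclic: `tree e β` only depends on the truth values of the further extension variables with an
index less than `lev e`, and `D j` contains only variables of the counting principle, shallow
extension variables `e` with `lev e ≤ j`, and further extension variables with an index less
than `j`. -/
structure ExtSys (p q N k : ℕ) (E : Type) where
  D : Fin k → Fm p (XVar q N E k)
  tree : E → (Fin k → Bool) → DTree N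
  lev : E → ℕ
  tree_lev : ∀ (e : E) (β β' : Fin k → Bool), (∀ i : Fin k, (i : ℕ) < lev e → β i = β' i) →
    tree e β = tree e β'
  D_lev : ∀ j : Fin k, Uses (fun x => (∀ e, x = .inr (.inl e) → lev e ≤ j) ∧
    ∀ i : Fin k, x = .inr (.inr i) → i < j) (D j)

/-- The truth value of the formula is determined to be `b` by the partial partition `π` and the
truth values `β` of the further extension variables:

* a variable `A` of the counting principle is true if `A ∈ π`, and it is false if `A ∉ π` and `A`
  contains a point that is covered by `π`,
* a shallow extension variable has the value `b` if its tree has the output `b` for `π`,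
* a disjunction is true if one of its members is true, and false if all of them are false,
* formulas that begin with a `MOD` gate are not determined. -/
def Det (X : ExtSys p q N k E) (β : Fin k → Bool) (π : PS N) : Fm p (XVar q N E k) → Bool → Prop
  | .var (.inl A), b => if b = true then A.1 ∈ π else A.1 ∉ π ∧ ¬ Disjoint A.1 (cov π)
  | .var (.inr (.inl e)), b => (X.tree e β).Out π b
  | .var (.inr (.inr j)), b => β j = b
  | .neg φ, b => Det X β π φ (!b)
  | .or _ φs, b => if b = true then ∃ j, Det X β π (φs j) true else ∀ j, Det X β π (φs j) false
  | .md _ _ _, _ => False

/-- `φ` is verified by decision trees of depth at most `N / M`: for all truth values `β` of the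
further extension variables there is such a tree so that `φ` is determined to be true by each
partial partition that leads the tree to a leaf. For instance, `φ` may be

* a clause of the counting principle,
* an extension axiom `e ∨ ¬ Ψ` or `¬ e ∨ Ψ` of a shallow extension variable `e`, if `Ψ` is
  determined by the answers to the questions of its tree. -/
def TreeAx (X : ExtSys p q N k E) (M : ℕ) (φ : Fm p (XVar q N E k)) : Prop :=
  ∀ β : Fin k → Bool, ∃ T : DTree N, T.depth * M ≤ N ∧
    ∀ (π : PS N) (b : Bool), IsPP q π → T.Out π b → Det X β π φ true

/-- `φ` is a disjunction that contains all literals of a clause of the counting principle: either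
the variables `A ∋ v` for a point `v`, or the negations of two variables `A ≠ B` with
`A ∩ B ≠ ∅`. -/
def IsClause (φ : Fm p (XVar q N E k)) : Prop :=
  ∃ (t : ℕ) (φs : Fin t → Fm p (XVar q N E k)), φ = .or t φs ∧
    ((∃ v : Fin N, ∀ A : Var q N, v ∈ A.1 → ∃ j, φs j = .var (.inl A)) ∨
      (∃ A B : Var q N, A ≠ B ∧ ¬ Disjoint A.1 B.1 ∧
        (∃ j, φs j = .neg (.var (.inl A))) ∧ ∃ j, φs j = .neg (.var (.inl B))))

/-- The formulas which can be derived from the clauses of the counting principle modulo `q` with the
extension variables of `X`, if all formulas have to be in `𝒰`:

* `clause`: the clauses of the counting principle,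
* `tree`: all formulas which are verified by decision trees of depth at most `N / M`, in particular
  the extension axioms of the shallow extension variables,
* `def₁`, `def₂`: the extension axioms `w ∨ ¬ D` and `¬ w ∨ D` of a further extension variable `w`
  which stands for `D`,
* `inf`: `φ` follows from at most `c` derivable formulas by an inference which only depends on the
  meaning of the `MOD` gates and of the outermost connectives of at most `c` formulas of `𝒰`. -/
inductive EDer (c M : ℕ) (X : ExtSys p q N k E) (𝒰 : Finset (Fm p (XVar q N E k))) :
    Fm p (XVar q N E k) → Prop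
  | clause {φ : Fm p (XVar q N E k)} : φ ∈ 𝒰 → IsClause φ → EDer c M X 𝒰 φ
  | tree {φ : Fm p (XVar q N E k)} : φ ∈ 𝒰 → TreeAx X M φ → EDer c M X 𝒰 φ
  | def₁ (j : Fin k) : .or 2 ![.var (.inr (.inr j)), .neg (X.D j)] ∈ 𝒰 →
      EDer c M X 𝒰 (.or 2 ![.var (.inr (.inr j)), .neg (X.D j)])
  | def₂ (j : Fin k) : .or 2 ![.neg (.var (.inr (.inr j))), X.D j] ∈ 𝒰 →
      EDer c M X 𝒰 (.or 2 ![.neg (.var (.inr (.inr j))), X.D j])
  | inf {φ : Fm p (XVar q N E k)} (P Q : Finset (Fm p (XVar q N E k))) :
      φ ∈ 𝒰 → P.card ≤ c → Q.card ≤ c → Q ⊆ 𝒰 → (∀ χ ∈ P, EDer c M X 𝒰 χ) →
      (∀ V : Fm p (XVar q N E k) → Bool, RespMod V → (∀ χ ∈ Q, RespAt V χ) →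
        (∀ χ ∈ P, V χ = true) → V φ = true) → EDer c M X 𝒰 φ

theorem EDer.mem {c M : ℕ} {X : ExtSys p q N k E} {𝒰 : Finset (Fm p (XVar q N E k))}
    {φ : Fm p (XVar q N E k)} (h : EDer c M X 𝒰 φ) : φ ∈ 𝒰 := by
  cases h <;> assumption

end Pool.Agent.J6H7.GX
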