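import Pool.Agent.J6H7.GX.Eval
import Pool.Agent.Helper600R2.Cnt.Deg

/-!
Degrees of the truth values of formulas. (Modelled on `Helper600R2.Cnt.Deg`.)
-/

set_option linter.unusedSectionVars false
set_option autoImplicit false

namespace Pool.Agent.J6H7.GX

open Finset Pool.Agent.Helper600R2 Pool.Agent.Helper600R2.Cnt

section degree

variable {Vt E : Type} [Fintype Vt] [Fintype E] [DecidableEq Vt] [DecidableEq E]
  {hd tl : E → Vt} {q : ℕ} [NeZero q] {K : Type*} [Field K] {ψ : AddChar (ZMod q) K}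
  {b : Vt → ZMod q} {N : ℕ} {ρ : PS N} {y : (E → ZMod q) → PS N}
  {p : ℕ} [Fact p.Prime] [CharP K p] {α : Type} {blk : α → MF N} {k : ℕ}

/-- the valuation at `z` -/
noncomputable def Vz (q k : ℕ) (ρ : PS N) {p : ℕ} {α : Type} (blk : α → MF N)
    (y : (E → ZMod q) → PS N) (z : E → ZMod q) (φ : Fm p α) : Bool :=
  VV blk (tv q k ρ (y z)) φ

lemma Vz_respMod (z : E → ZMod q) : RespMod (Vz (p := p) q k ρ blk y z) :=
  VV_respMod (fun b => tv_cst (y z) b)

lemma rd_filter (φ : Fm p α) (z : E → ZMod q) [DecidableEq (Fm p α)] :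
    rd blk (tv q k ρ (y z)) φ =
      subst blk (fun χ => decide (χ ∈ φ.tops.filter
        (fun χ => Vz (p := p) q k ρ blk y z χ = true))) φ := by
  rw [rd_eq_subst (fun b => tv_cst (y z) b)]
  apply subst_congr
  intro χ hχ
  have h1 : VV blk (tv q k ρ (y z)) χ = Vz (p := p) q k ρ blk y z χ := rfl
  rw [h1]
  cases h : Vz (p := p) q k ρ blk y z χ <;> simp [hχ, h]

lemma tv_deg (hG : Good hd tl ψ b N ρ y) (χ : MF N) :
    toK K (fun z => tv q k ρ (y z) χ) ∈ J (ι := E) (α := ZMod q) K (4 * k) :=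
  hG.tree_deg (fun σ => W q k χ true σ) (tr q k ρ χ) k (tr_ht χ)

theorem Vz_deg (hG : Good hd tl ψ b N ρ y) {𝒰 : Finset (Fm p α)} (h𝒰 : ClosedFm 𝒰) (G : ℕ)
    (hw : ∀ φ ∈ 𝒰, φ.tops.card ≤ G) : ∀ h : ℕ,
    (∀ φ ∈ 𝒰, φ.depth ≤ h →
      toK K (fun z => Vz q k ρ blk y z φ) ∈ J (ι := E) (α := ZMod q) K (AA k p G h)) ∧
    (∀ φ ∈ 𝒰, φ.depth ≤ h + 1 → ∀ χ ∈ φ.tops,
      toK K (fun z => Vz q k ρ blk y z χ) ∈
        J (ι := E) (α := ZMod q) K ((p - 1) * AA k p G h)) := by
  classical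
  have hp1 : 1 ≤ p := (Fact.out : p.Prime).one_le
  have key : ∀ h : ℕ, (∀ φ ∈ 𝒰, φ.depth ≤ h →
      toK K (fun z => Vz q k ρ blk y z φ) ∈ J (ι := E) (α := ZMod q) K (AA k p G h)) →
      (∀ φ ∈ 𝒰, φ.depth ≤ h + 1 → ∀ χ ∈ φ.tops,
      toK K (fun z => Vz q k ρ blk y z χ) ∈
        J (ι := E) (α := ZMod q) K ((p - 1) * AA k p G h)) := by
    intro h ih φ hφ hd χ hχ
    obtain ⟨⟨i, t, φs, rfl⟩, h2⟩ := tops_spec φ χ hχ
    have hmem := tops_mem h𝒰 φ hφ _ hχ
    have h3 : (fun z => Vz (p := p) q k ρ blk y z (.md i t φs)) =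
        fun z => decide ((∑ j, if (fun z => Vz (p := p) q k ρ blk y z (φs j)) z = true then
          (1 : ZMod p) else 0) = i) := by
      funext z
      exact Vz_respMod z i t φs
    rw [h3]
    apply md_deg (fun j z => Vz (p := p) q k ρ blk y z (φs j)) i
    intro j
    apply ih _ (h𝒰.md i t φs hmem j)
    simp only [Fm.depth] at h2
    have := Finset.le_sup (f := fun j => (φs j).depth) (mem_univ j)
    omega
  have main : ∀ (φ : Fm p α) (a : ℕ), φ ∈ 𝒰 → (∀ χ ∈ φ.tops,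
      toK K (fun z => Vz q k ρ blk y z χ) ∈ J (ι := E) (α := ZMod q) K a) →
      toK K (fun z => Vz q k ρ blk y z φ) ∈
        J (ι := E) (α := ZMod q) K (4 * k + φ.tops.card * a) := by
    intro φ a _ hχ
    have h1 := mix_J (K := K) φ.tops (fun χ z => Vz (p := p) q k ρ blk y z χ)
      (fun A => toK K (fun z => tv q k ρ (y z) (subst blk (fun χ => decide (χ ∈ A)) φ)))
      a (4 * k) hχ (fun A => tv_deg hG _)
    have h2 : toK K (fun z => Vz q k ρ blk y z φ) =
        fun z => (fun A : Finset (Fm p α) => toK K (fun z => tv q k ρ (y z)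
          (subst blk (fun χ => decide (χ ∈ A)) φ)))
          (φ.tops.filter (fun χ => (fun χ z => Vz (p := p) q k ρ blk y z χ) χ z = true)) z := by
      funext z
      exact congrArg (fun ψ => if tv q k ρ (y z) ψ = true then (1 : K) else 0)
        (rd_filter (p := p) (blk := blk) (k := k) (ρ := ρ) (y := y) φ z)
    rw [h2]
    exact h1
  intro h
  induction h with
  | zero =>
    refine ⟨?_, ?_⟩
    · intro φ hφ hd
      have h1 : φ.tops = ∅ := by
        rw [Finset.eq_empty_iff_forall_notMem]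
        intro χ hχ
        obtain ⟨⟨i, t, φs, rfl⟩, h2⟩ := tops_spec φ χ hχ
        simp only [Fm.depth] at h2
        omega
      have h2 := main φ 0 hφ (by rw [h1]; simp)
      rw [h1] at h2
      simpa [AA] using h2
    · apply key 0
      intro φ hφ hd
      have h1 : φ.tops = ∅ := by
        rw [Finset.eq_empty_iff_forall_notMem]
        intro χ hχ
        obtain ⟨⟨i, t, φs, rfl⟩, h2⟩ := tops_spec φ χ hχ
        simp only [Fm.depth] at h2
        omega
      have h2 := main φ 0 hφ (by rw [h1]; simp)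
      rw [h1] at h2
      simpa [AA] using h2
  | succ h ih =>
    have h1 : ∀ φ ∈ 𝒰, φ.depth ≤ h + 1 →
        toK K (fun z => Vz q k ρ blk y z φ) ∈
          J (ι := E) (α := ZMod q) K (AA k p G (h + 1)) := by
      intro φ hφ hd
      refine J_mono ?_ (main φ _ hφ (ih.2 φ hφ hd))
      refine le_trans ?_ (AA_succ k p G h hp1).1
      exact Nat.add_le_add_left (Nat.mul_le_mul_right _ (hw φ hφ)) _
    exact ⟨h1, key (h + 1) h1⟩

/-- negligibility of the failure of a family of trees -/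
lemma fail_null (hψ : ψ.IsPrimitive) (hqK : (q : K) ≠ 0) (hG : Good hd tl ψ b N ρ y)
    {𝒰 : Finset (Fm p α)} (h𝒰 : ClosedFm 𝒰) (G : ℕ)
    (hw : ∀ φ ∈ 𝒰, φ.tops.card ≤ G) (d : ℕ) (hd' : ∀ φ ∈ 𝒰, φ.depth ≤ d) (φ : Fm p α)
    (hφ : φ ∈ 𝒰) (l : ℕ) (C : MF N → DT N (PS N)) (hC : ∀ χ, (C χ).HtLe l) :
    toK K (fun z => ((C (rd blk (tv q k ρ (y z)) φ)).eval (y z)).isNone) ∈
      NF hd tl ψ b (4 * l + 8 + G * (p * AA k p G d)) ∧
    toK K (fun z => ((C (rd blk (tv q k ρ (y z)) φ)).eval (y z)).isNone) ∈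
      J (ι := E) (α := ZMod q) K (4 * l + 8 + G * (p * AA k p G d)) := by
  classical
  have hχ : ∀ χ ∈ φ.tops, toK K (fun z => Vz q k ρ blk y z χ) ∈
      J (ι := E) (α := ZMod q) K (p * AA k p G d) := by
    intro χ hχ
    refine J_mono (Nat.mul_le_mul_right _ (Nat.sub_le p 1))
      ((Vz_deg hG h𝒰 G hw d).2 φ hφ ?_ χ hχ)
    exact (hd' φ hφ).trans (Nat.le_succ d)
  have heq : toK K (fun z => ((C (rd blk (tv q k ρ (y z)) φ)).eval (y z)).isNone) =
      fun z => (fun A : Finset (Fm p α) => toK K (fun z =>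
        ((C (subst blk (fun χ => decide (χ ∈ A)) φ)).eval (y z)).isNone))
          (φ.tops.filter (fun χ => (fun χ z => Vz (p := p) q k ρ blk y z χ) χ z = true)) z := by
    funext z
    exact congrArg (fun ψ => if ((C ψ).eval (y z)).isNone = true then (1 : K) else 0)
      (rd_filter (p := p) (blk := blk) (k := k) (ρ := ρ) (y := y) φ z)
  have hcard : φ.tops.card * (p * AA k p G d) ≤ G * (p * AA k p G d) :=
    Nat.mul_le_mul_right _ (hw φ hφ)
  constructor
  · rw [heq]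
    refine NF_mono hd tl ψ (Nat.add_le_add_left hcard _) ?_
    exact mix_NF hψ hqK φ.tops (fun χ z => Vz (p := p) q k ρ blk y z χ)
      (fun A => toK K (fun z =>
        ((C (subst blk (fun χ => decide (χ ∈ A)) φ)).eval (y z)).isNone))
      (p * AA k p G d) (4 * l + 8) hχ (fun A => hG.tree_fail hψ hqK _ l (hC _))
  · rw [heq]
    refine J_mono (Nat.add_le_add_left hcard _) ?_
    refine mix_J (K := K) φ.tops (fun χ z => Vz (p := p) q k ρ blk y z χ)
      (fun A => toK K (fun z =>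
        ((C (subst blk (fun χ => decide (χ ∈ A)) φ)).eval (y z)).isNone))
      (p * AA k p G d) (4 * l + 8) hχ (fun A => ?_)
    obtain ⟨F, hF, hFJ⟩ : ∃ F : (E → ZMod q) → K, (∀ z, F z =
        if ((C (subst blk (fun χ => decide (χ ∈ A)) φ)).eval (y z)).isNone = true then 0 else 1) ∧
        F ∈ J (ι := E) (α := ZMod q) K (4 * l) := by
      refine ⟨_, fun z => ?_, hG.tree_deg (fun _ => True)
        (C (subst blk (fun χ => decide (χ ∈ A)) φ)) l (hC _)⟩
      cases h : (C (subst blk (fun χ => decide (χ ∈ A)) φ)).eval (y z) <;> simp [toK, h]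
    have h2 : toK K (fun z =>
        ((C (subst blk (fun χ => decide (χ ∈ A)) φ)).eval (y z)).isNone) = 1 - F := by
      funext z
      rw [Pi.sub_apply, hF]
      cases h : (C (subst blk (fun χ => decide (χ ∈ A)) φ)).eval (y z) <;> simp [toK, h]
    rw [h2]
    have h3 : 4 * l ≤ 4 * l + 8 := by omega
    exact Submodule.sub_mem _ (J_one _) (J_mono h3 hFJ)

end degree

end Pool.Agent.J6H7.GX
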