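import Pool.Agent.J6H7.GX.Sub

/-!
Truth values of formulas at a partial partition; local soundness. (Modelled on
`Helper600R2.Cnt.Eval`.)
-/

set_option linter.unusedSectionVars false
set_option autoImplicit false

namespace Pool.Agent.J6H7.GX

open Finset Pool.Agent.Helper600R2.Cnt

section trees

variable {N : ℕ} {q k : ℕ} {ρ : PS N}

open Classical in
/-- chosen trees -/
noncomputable def tr (q k : ℕ) (ρ : PS N) (ψ : MF N) : DT N (PS N) :=
  if ∃ b, ψ = .cst b then .leaf ρ else if h : HasT q k ψ ρ k then h.choose else .leaf ρ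

lemma tr_ht (ψ : MF N) : (tr q k ρ ψ).HtLe k := by
  classical
  unfold tr
  split_ifs with h1 h2
  · trivial
  · exact h2.choose_spec.1
  · trivial

lemma tr_cst (b : Bool) : tr q k ρ (.cst b) = .leaf ρ := by
  classical
  unfold tr
  rw [if_pos ⟨b, rfl⟩]

lemma tr_rep {ψ : MF N} (h : HasT q k ψ ρ k) : Rep q k ψ (tr q k ρ ψ) ρ k := by
  classical
  by_cases h1 : ∃ b, ψ = .cst b
  · obtain ⟨b, rfl⟩ := h1
    rw [tr_cst]
    intro y _ hρ σ hσ
    simp only [DT.eval, Option.some.injEq] at hσ
    subst hσ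
    refine ⟨subset_rfl, hρ, by omega, ?_⟩
    cases b
    · exact Or.inr rfl
    · exact Or.inl rfl
  · unfold tr
    rw [if_neg h1, dif_pos h]
    exact h.choose_spec.2

open Classical in
/-- truth value at a partial partition -/
noncomputable def tv (q k : ℕ) (ρ : PS N) (y : PS N) (ψ : MF N) : Bool :=
  decide (∃ σ, (tr q k ρ ψ).eval y = some σ ∧ W q k ψ true σ)

lemma tv_iff {y : PS N} {ψ : MF N} :
    tv q k ρ y ψ = true ↔ ∃ σ, (tr q k ρ ψ).eval y = some σ ∧ W q k ψ true σ := by
  classical
  simp [tv]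

lemma tv_cst (y : PS N) (b : Bool) : tv q k ρ y (.cst b) = b := by
  have h : tv q k ρ y (.cst b) = true ↔ b = true := by
    rw [tv_iff, tr_cst]
    simp only [DT.eval, Option.some.injEq, W]
    constructor
    · rintro ⟨_, _, h⟩; exact h
    · intro h; exact ⟨ρ, rfl, h⟩
  cases b
  · cases h' : tv q k ρ y (.cst false)
    · rfl
    · exact absurd (h.mp h') (by simp)
  · exact h.mpr rfl

open Classical in
/-- the tree whose success guarantees that the outermost connective is respected -/
noncomputable def ck (q k : ℕ) (ρ : PS N) : MF N → DT N (PS N)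
  | .neg ψ => (tr q k ρ (.neg ψ)).bind (fun _ => tr q k ρ ψ)
  | .or t ψs => (tr q k ρ (.or t ψs)).bind (fun σ =>
      if h : ∃ j, W q k (ψs j) true σ then tr q k ρ (ψs h.choose) else .leaf σ)
  | _ => .leaf ρ

lemma ck_ht (ψ : MF N) : (ck q k ρ ψ).HtLe (k + k) := by
  classical
  cases ψ with
  | cst b => trivial
  | atm e => trivial
  | neg ψ => exact DT.HtLe.bind (fun _ => tr_ht ψ) (tr_ht _)
  | or t ψs =>
    refine DT.HtLe.bind (fun σ => ?_) (tr_ht _)
    split_ifs with h
    · exact tr_ht _
    · trivial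

/-- the tree whose success guarantees that an axiom about the element `u` is true -/
noncomputable def ckA (q k : ℕ) (ρ : PS N) (u : Fin N) (ψ : MF N) : DT N (PS N) :=
  (tr q k ρ ψ).bind (fun σ => .node {u} (fun _ => .leaf σ))

lemma ckA_ht (u : Fin N) (ψ : MF N) : (ckA q k ρ u ψ).HtLe (k + 1) := by
  refine DT.HtLe.bind (fun σ => ?_) (tr_ht _)
  exact ⟨0, by simp, fun _ => trivial⟩

lemma card_two {ρ σ σ' : PS N} (h : ρ ⊆ σ) (h' : ρ ⊆ σ') (hc : σ.card ≤ ρ.card + k)
    (hc' : σ'.card ≤ ρ.card + k) : (σ ∪ σ').card ≤ ρ.card + 2 * k := by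
  have h1 : σ ∪ σ' ⊆ (σ \ ρ) ∪ σ' := by
    intro B hB
    simp only [mem_union, mem_sdiff] at hB ⊢
    rcases hB with hB | hB
    · by_cases hBρ : B ∈ ρ
      · exact Or.inr (h' hBρ)
      · exact Or.inl ⟨hB, hBρ⟩
    · exact Or.inr hB
  have h2 := (card_le_card h1).trans (card_union_le _ _)
  have h3 : (σ \ ρ).card + ρ.card = σ.card := card_sdiff_add_card_eq_card h
  omega

/-- consistency of the values found by two trees -/
lemma consist {y : PS N} (hy : IsPP q y) (hρy : ρ ⊆ y) {ψ : MF N}
    (hroom : q * (ρ.card + 2 * k + k * ψ.dep) ≤ N) {σ σ' : PS N} (h1 : ρ ⊆ σ) (h2 : σ ⊆ y)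
    (h3 : σ.card ≤ ρ.card + k) (h1' : ρ ⊆ σ') (h2' : σ' ⊆ y) (h3' : σ'.card ≤ ρ.card + k)
    (hW : W q k ψ true σ) (hW' : W q k ψ false σ') : False := by
  have hsub : σ ∪ σ' ⊆ y := union_subset h2 h2'
  have hc := card_two h1 h1' h3 h3'
  refine W_cons ψ (hy.mono hsub) ((Nat.mul_le_mul_left q (by omega)).trans hroom)
    (W_mono _ hW subset_union_left (hy.mono hsub))
    (W_mono _ hW' subset_union_right (hy.mono hsub))

lemma check_neg {y : PS N} (hy : IsPP q y) (hρy : ρ ⊆ y) {ψ : MF N}
    (hroom : q * (ρ.card + 2 * k + k * ψ.dep) ≤ N) (hT : HasT q k ψ ρ k)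
    (hck : ((ck q k ρ (.neg ψ)).eval y).isNone = false) :
    tv q k ρ y (.neg ψ) = !(tv q k ρ y ψ) := by
  classical
  have hT' := hT.neg
  simp only [ck, DT.eval_bind] at hck
  cases h1 : (tr q k ρ (.neg ψ)).eval y with
  | none => rw [h1] at hck; simp at hck
  | some σ =>
    cases h2 : (tr q k ρ ψ).eval y with
    | none => rw [h1, h2] at hck; simp at hck
    | some σ' =>
      obtain ⟨a1, a2, a3, a4⟩ := tr_rep hT' y hy hρy σ h1
      obtain ⟨b1, b2, b3, b4⟩ := tr_rep hT y hy hρy σ' h2
      have e1 : tv q k ρ y (.neg ψ) = true ↔ W q k ψ false σ := by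
        rw [tv_iff, h1]
        constructor
        · rintro ⟨τ, hτ, hW⟩
          rw [Option.some.injEq] at hτ
          subst hτ
          exact hW
        · intro hW; exact ⟨σ, rfl, hW⟩
      have e2 : tv q k ρ y ψ = true ↔ W q k ψ true σ' := by
        rw [tv_iff, h2]
        constructor
        · rintro ⟨τ, hτ, hW⟩
          rw [Option.some.injEq] at hτ
          subst hτ
          exact hW
        · intro hW; exact ⟨σ', rfl, hW⟩
      cases hv1 : tv q k ρ y (.neg ψ) <;> cases hv2 : tv q k ρ y ψ
      · exfalso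
        have g1 : ¬ W q k ψ false σ := fun h => by rw [e1.mpr h] at hv1; simp at hv1
        have g2 : ¬ W q k ψ true σ' := fun h => by rw [e2.mpr h] at hv2; simp at hv2
        have g3 : W q k ψ true σ := by
          rcases a4 with h | h
          · exact absurd h g1
          · exact h
        have g4 : W q k ψ false σ' := by
          rcases b4 with h | h
          · exact absurd h g2
          · exact h
        exact consist hy hρy hroom a1 a2 a3 b1 b2 b3 g3 g4
      · rfl
      · rfl
      · exfalso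
        exact consist hy hρy hroom b1 b2 b3 a1 a2 a3 (e2.mp hv2) (e1.mp hv1)

lemma check_or {y : PS N} (hy : IsPP q y) (hρy : ρ ⊆ y) {t : ℕ} {ψs : Fin t → MF N}
    (hroom : q * (ρ.card + 2 * k + k * (MF.or t ψs).dep) ≤ N)
    (hT : HasT q k (.or t ψs) ρ k) (hTs : ∀ j, HasT q k (ψs j) ρ k)
    (hck : ((ck q k ρ (.or t ψs)).eval y).isNone = false) :
    tv q k ρ y (.or t ψs) = true ↔ ∃ j, tv q k ρ y (ψs j) = true := by
  classical
  simp only [ck, DT.eval_bind] at hck
  cases h1 : (tr q k ρ (.or t ψs)).eval y with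
  | none => rw [h1] at hck; simp at hck
  | some σ =>
    obtain ⟨a1, a2, a3, a4⟩ := tr_rep hT y hy hρy σ h1
    have e1 : tv q k ρ y (.or t ψs) = true ↔ W q k (.or t ψs) true σ := by
      rw [tv_iff, h1]
      constructor
      · rintro ⟨τ, hτ, hW⟩
        rw [Option.some.injEq] at hτ
        subst hτ
        exact hW
      · intro hW; exact ⟨σ, rfl, hW⟩
    rw [h1, Option.bind_some] at hck
    by_cases hW : W q k (.or t ψs) true σ
    · have hex := W_or_true.mp hW
      rw [dif_pos hex] at hck
      set j := hex.choose with hj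
      have hWj : W q k (ψs j) true σ := hex.choose_spec
      refine ⟨fun _ => ⟨j, ?_⟩, fun _ => e1.mpr hW⟩
      cases h2 : (tr q k ρ (ψs j)).eval y with
      | none => rw [h2] at hck; simp at hck
      | some σ' =>
        obtain ⟨b1, b2, b3, b4⟩ := tr_rep (hTs j) y hy hρy σ' h2
        rw [tv_iff, h2]
        refine ⟨σ', rfl, ?_⟩
        rcases b4 with h | h
        · exact h
        · exfalso
          refine consist hy hρy ?_ a1 a2 a3 b1 b2 b3 hWj h
          refine le_trans (Nat.mul_le_mul_left q ?_) hroom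
          have := Nat.mul_le_mul_left k (MF.dep_lt ψs j).le
          omega
    · have hWf : W q k (.or t ψs) false σ := by
        rcases a4 with h | h
        · exact absurd h hW
        · exact h
      constructor
      · intro h; exact absurd (e1.mp h) hW
      · rintro ⟨j, hj⟩
        exfalso
        rw [tv_iff] at hj
        obtain ⟨σ', h2, h3⟩ := hj
        obtain ⟨b1, b2, b3, b4⟩ := tr_rep (hTs j) y hy hρy σ' h2
        have hsub : σ ∪ σ' ⊆ y := union_subset a2 b2
        have hc := card_two a1 b1 a3 b3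
        exact W_or_false.mp hWf (σ ∪ σ') (hy.mono hsub) subset_union_left
          ((Nat.mul_le_mul_left q (by omega)).trans hroom) j
          (W_mono _ h3 subset_union_right (hy.mono hsub))

lemma check_ax (hk : 1 ≤ k) {y : PS N} (hy : IsPP q y) (hρy : ρ ⊆ y) {t : ℕ}
    {ψs : Fin t → MF N} (hroom : q * (ρ.card + 2 * k + k * (MF.or t ψs).dep) ≤ N)
    (hT : HasT q k (.or t ψs) ρ k) (u : Fin N)
    (hax : ∀ B, B.card = q → u ∈ B → ∀ π, IsPP q π → B ∈ π → ∃ j, W q k (ψs j) true π)
    (hck : ((ckA q k ρ u (.or t ψs)).eval y).isNone = false) :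
    tv q k ρ y (.or t ψs) = true := by
  classical
  simp only [ckA, DT.eval_bind] at hck
  cases h1 : (tr q k ρ (.or t ψs)).eval y with
  | none => rw [h1] at hck; simp at hck
  | some σ =>
    obtain ⟨a1, a2, a3, a4⟩ := tr_rep hT y hy hρy σ h1
    rw [h1, Option.bind_some, DT.eval] at hck
    by_cases hu : {u} ⊆ cov y
    · rw [tv_iff, h1]
      refine ⟨σ, rfl, ?_⟩
      rcases a4 with h | h
      · exact h
      · exfalso
        obtain ⟨B, hB, huB⟩ := mem_cov.mp (hu (mem_singleton_self u))
        have hsub : insert B σ ⊆ y := by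
          intro C hC
          rcases mem_insert.mp hC with rfl | hC
          · exact hB
          · exact a2 hC
        obtain ⟨j, hj⟩ := hax B (hy.1 B hB) huB (insert B σ) (hy.mono hsub)
          (mem_insert_self _ _)
        have hc := card_insert_le B σ
        exact W_or_false.mp h (insert B σ) (hy.mono hsub) (subset_insert _ _)
          ((Nat.mul_le_mul_left q (by omega)).trans hroom) j hj
    · rw [if_neg hu] at hck
      simp at hck

end trees

section vals

variable {p : ℕ} {α : Type} {N : ℕ} (blk : α → MF N)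

/-- replacing the maximal `md` subformulas by their values -/
def rd (tvf : MF N → Bool) : Fm p α → MF N
  | .var a => blk a
  | .neg φ => .neg (rd tvf φ)
  | .or t φs => .or t (fun j => rd tvf (φs j))
  | .md i _ φs =>
      .cst (decide ((∑ j, if tvf (rd tvf (φs j)) = true then (1 : ZMod p) else 0) = i))

/-- the valuation -/
def VV (tvf : MF N → Bool) (φ : Fm p α) : Bool := tvf (rd blk tvf φ)

variable {blk}

lemma VV_respMod {tvf : MF N → Bool} (h : ∀ b, tvf (.cst b) = b) :
    RespMod (VV (p := p) blk tvf) := by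
  intro i t φs
  simp only [VV, rd, h]
  rfl

lemma rd_eq_subst {tvf : MF N → Bool} (h : ∀ b, tvf (.cst b) = b) (φ : Fm p α) :
    rd blk tvf φ = subst blk (VV blk tvf) φ := by
  induction φ with
  | var a => rfl
  | neg φ ih => simp only [rd, subst, ih]
  | or t φs ih =>
    simp only [rd, subst]
    congr 1
    funext j
    exact ih j
  | md i t φs _ =>
    simp only [subst, VV_respMod h i t φs]
    rfl

end vals

end Pool.Agent.J6H7.GX
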