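import Pool.Agent.J6H7.GX.Num

/-!
# The lower bound
-/

set_option linter.unusedSectionVars false
set_option autoImplicit false

namespace Pool.Agent.J6H7.GX

open Finset Filter Pool.Agent.Helper600R2.Cnt

theorem final_real {C q e W M Y : ℕ} {x δ : ℝ} (hq : 1 ≤ q) (he1 : 1 ≤ e) (hW1 : 1 ≤ W)
    (hδ : δ = 1 / (2 * e * W * q)) (hM0 : (1 : ℝ) ≤ M)
    (hM1 : (64 : ℝ) * q * 2 ^ q * (((C : ℝ) * (3 * q) ^ e) ^ W) ^ q ≤ (M : ℝ) ^ ((1 : ℝ) / 2))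
    (hx : x = (M : ℝ) ^ δ) (hY2 : (Y : ℝ) ≤ 3 * x) :
    64 * q * (2 * (C * (q * Y) ^ e) ^ W) ^ q ≤ M := by
  have hM0' : (0 : ℝ) ≤ M := by linarith
  have hx0 : (0 : ℝ) ≤ x := by rw [hx]; exact Real.rpow_nonneg hM0' _
  have h4 : ((64 * q * (2 * (C * (q * Y) ^ e) ^ W) ^ q : ℕ) : ℝ) ≤ M := by
    push_cast
    have h5 : (q : ℝ) * Y ≤ (3 * q) * x := by
      have : (0 : ℝ) ≤ q := Nat.cast_nonneg q
      nlinarith
    calc (64 : ℝ) * q * (2 * ((C : ℝ) * ((q : ℝ) * Y) ^ e) ^ W) ^ q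
        ≤ 64 * q * (2 * ((C : ℝ) * ((3 * q) * x) ^ e) ^ W) ^ q := by gcongr
      _ = (64 * q * 2 ^ q * (((C : ℝ) * (3 * q) ^ e) ^ W) ^ q) * ((x ^ e) ^ W) ^ q := by
          rw [mul_pow (3 * (q : ℝ)) x e, ← mul_assoc, mul_pow _ (x ^ e) W, mul_pow 2 _ q,
            mul_pow _ ((x ^ e) ^ W) q]
          ring
      _ ≤ (M : ℝ) ^ ((1 : ℝ) / 2) * ((x ^ e) ^ W) ^ q :=
          mul_le_mul_of_nonneg_right hM1 (by positivity)
      _ = (M : ℝ) ^ ((1 : ℝ) / 2) * (M : ℝ) ^ ((1 : ℝ) / 2) := by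
          congr 1
          rw [hx, ← Real.rpow_natCast, ← Real.rpow_natCast, ← Real.rpow_natCast,
            ← Real.rpow_mul hM0', ← Real.rpow_mul hM0', ← Real.rpow_mul hM0']
          congr 1
          rw [hδ]
          have h6 : (e : ℝ) ≠ 0 := by have : (1 : ℝ) ≤ e := by exact_mod_cast he1
                                      linarith
          have h7 : (W : ℝ) ≠ 0 := by have : (1 : ℝ) ≤ W := by exact_mod_cast hW1
                                      linarith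
          have h8 : (q : ℝ) ≠ 0 := by have : (1 : ℝ) ≤ q := by exact_mod_cast hq
                                      linarith
          field_simp
      _ = M := by
          rw [← Real.rpow_add (by linarith)]
          norm_num
  exact_mod_cast h4

/-- the choice of the number of free points -/
theorem final_root {q N M u0 : ℕ} (hq : 2 ≤ q) (hMN : M ≤ N) (hu0 : q ≤ u0)
    (h : 64 * q * (2 * u0) ^ q ≤ M) :
    ∃ b0 u : ℕ, 1 ≤ b0 ∧ q * b0 + u = N ∧ 32 * (N / M) * u ^ q ≤ b0 ∧ u0 ≤ u := by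
  have hpow : 2 * u0 ≤ (2 * u0) ^ q := Nat.le_self_pow (by omega) _
  have h1 : 64 * q * (2 * u0) ≤ N := (Nat.mul_le_mul_left _ hpow).trans (h.trans hMN)
  have h2 : 64 * (2 * u0) ≤ 64 * q * (2 * u0) := by
    rw [mul_assoc 64 q]
    exact Nat.mul_le_mul_left 64 (Nat.le_mul_of_pos_left _ (by omega))
  have hdm := Nat.div_add_mod (N - u0) q
  have hmod := Nat.mod_lt (N - u0) (show 0 < q by omega)
  obtain ⟨b0, hb0⟩ : ∃ b0, b0 = (N - u0) / q := ⟨_, rfl⟩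
  rw [← hb0] at hdm
  have hu1 : u0 ≤ N - q * b0 := by omega
  have hu2 : N - q * b0 ≤ 2 * u0 := by omega
  have hMpos : 0 < M := by
    refine lt_of_lt_of_le ?_ h
    exact Nat.mul_pos (Nat.mul_pos (by norm_num) (by omega)) (Nat.pow_pos (by omega))
  have hmain : 32 * (N / M) * (N - q * b0) ^ q ≤ b0 := by
    have h3 : (N - q * b0) ^ q ≤ (2 * u0) ^ q := Nat.pow_le_pow_left hu2 q
    have h4 : N / M * M ≤ N := Nat.div_mul_le_self N M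
    have h5 : 2 * q * (32 * (N / M) * (N - q * b0) ^ q) ≤ N := by
      calc 2 * q * (32 * (N / M) * (N - q * b0) ^ q)
          ≤ 2 * q * (32 * (N / M) * (2 * u0) ^ q) :=
            Nat.mul_le_mul_left _ (Nat.mul_le_mul_left _ h3)
        _ = N / M * (64 * q * (2 * u0) ^ q) := by ring
        _ ≤ N / M * M := Nat.mul_le_mul_left _ h
        _ ≤ N := h4
    have h6 : N ≤ 2 * q * b0 := by
      have e1 : 2 * q * b0 = 2 * (q * b0) := by ring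
      rw [e1]
      omega
    exact Nat.le_of_mul_le_mul_left (h5.trans h6) (Nat.mul_pos (by norm_num) (by omega))
  refine ⟨b0, N - q * b0, ?_, by omega, hmain, hu1⟩
  by_contra hcon
  have h0 : b0 = 0 := by omega
  rw [h0] at hdm
  omega

/-- **The lower bound.** -/
theorem lower (p q : ℕ) (hp : p.Prime) (hq : 2 ≤ q) (hpq : ¬ p ∣ q) (d c : ℕ) :
    ∃ δ : ℝ, 0 < δ ∧ ∀ᶠ M : ℕ in atTop, ∀ N : ℕ, M ≤ N → ∀ (k : ℕ) (E : Type)
      (X : ExtSys p q N k E) (𝒰 : Finset (Fm p (XVar q N E k))), SubClosed 𝒰 →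
      (∀ e β, (X.tree e β).depth * M ≤ N) → (∀ j, X.D j ∈ 𝒰) → (∀ φ ∈ 𝒰, φ.depth ≤ d) →
      (∀ φ ∈ 𝒰, (φ.tops.card : ℝ) ≤ (M : ℝ) ^ δ) → (k : ℝ) ≤ (M : ℝ) ^ δ →
      (𝒰.card : ℝ) ≤ (2 : ℝ) ^ ((M : ℝ) ^ δ) → ∀ f, ¬ EDer c M X 𝒰 (.or 0 f) := by
  obtain ⟨C, hC, hcore⟩ := core p q hp hq hpq d c
  obtain ⟨e, he⟩ : ∃ e : ℕ, e = d + 2 := ⟨_, rfl⟩
  obtain ⟨W, hW⟩ : ∃ W : ℕ, W = (2 * (q * q + q) + 4) ^ d := ⟨_, rfl⟩
  rw [← he, ← hW] at hcore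
  have hW1 : 1 ≤ W := by rw [hW]; exact Nat.one_le_pow _ _ (by omega)
  have he1 : 1 ≤ e := by omega
  clear hW
  obtain ⟨δ, hδ⟩ : ∃ δ : ℝ, δ = 1 / (2 * e * W * q) := ⟨_, rfl⟩
  have hδ0 : 0 < δ := by
    have h1 : (0 : ℝ) < e := by exact_mod_cast he1
    have h2 : (0 : ℝ) < W := by exact_mod_cast hW1
    have h3 : (0 : ℝ) < q := by exact_mod_cast (by omega : 0 < q)
    rw [hδ]; positivity
  refine ⟨δ, hδ0, ?_⟩
  have hlim : Tendsto (fun n : ℕ => (n : ℝ) ^ ((1 : ℝ) / 2)) atTop atTop :=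
    (tendsto_rpow_atTop (by norm_num)).comp tendsto_natCast_atTop_atTop
  filter_upwards [hlim.eventually_ge_atTop
    ((64 : ℝ) * q * 2 ^ q * (((C : ℝ) * (3 * q) ^ e) ^ W) ^ q), eventually_ge_atTop 1]
    with M hM1 hM2
  intro N hMN k E X 𝒰 hcl hE hD hd hG hk hU f
  have hM0 : (1 : ℝ) ≤ M := by exact_mod_cast hM2
  obtain ⟨x, hx⟩ : ∃ x : ℝ, x = (M : ℝ) ^ δ := ⟨_, rfl⟩
  rw [← hx] at hk hU
  have hG' : ∀ φ ∈ 𝒰, (φ.tops.card : ℝ) ≤ x := fun φ hφ => by rw [hx]; exact hG φ hφ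
  have hx1 : 1 ≤ x := by rw [hx]; exact Real.one_le_rpow hM0 hδ0.le
  obtain ⟨Y, hY⟩ : ∃ Y : ℕ, Y = ⌊x⌋₊ + 2 := ⟨_, rfl⟩
  have hfl : (⌊x⌋₊ : ℝ) ≤ x := Nat.floor_le (by linarith)
  have hYx : (Y : ℝ) ≤ 3 * x := by
    rw [hY]; push_cast; linarith
  have hkY : k ≤ ⌊x⌋₊ := Nat.le_floor hk
  have hGY : ∀ φ ∈ 𝒰, φ.tops.card ≤ ⌊x⌋₊ := fun φ hφ => Nat.le_floor (hG' φ hφ)
  have hUY : 𝒰.card ≤ 2 ^ (⌊x⌋₊ + 1) := by
    have h1 : (𝒰.card : ℝ) ≤ (2 : ℝ) ^ (((⌊x⌋₊ + 1 : ℕ) : ℝ)) := by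
      refine hU.trans (Real.rpow_le_rpow_of_exponent_le (by norm_num) ?_)
      push_cast
      exact (Nat.lt_floor_add_one x).le
    rw [Real.rpow_natCast] at h1
    exact_mod_cast h1
  have hbnd : 64 * q * (2 * (C * (q * Y) ^ e) ^ W) ^ q ≤ M :=
    final_real (by omega) he1 hW1 hδ hM0 hM1 hx hYx
  have hqY : q ≤ q * Y := Nat.le_mul_of_pos_right q (by omega)
  have hu0 : q ≤ (C * (q * Y) ^ e) ^ W := by
    calc q ≤ q * Y := hqY
      _ ≤ (q * Y) ^ e := Nat.le_self_pow (by omega) _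
      _ ≤ C * (q * Y) ^ e := Nat.le_mul_of_pos_left _ hC
      _ ≤ _ := Nat.le_self_pow (by omega) _
  obtain ⟨b0, u, hb1, hNu, hr, hu⟩ := final_root hq hMN hu0 hbnd
  refine hcore N Y k M (N / M) b0 u (by omega) (by omega) hb1 hNu hr
    (fun t ht => (Nat.le_div_iff_mul_le (by omega)).mpr ht) hu E X 𝒰 ?_ hd
    (fun φ hφ => by have := hGY φ hφ; omega) hD (fun e _ β => hE e β) ?_ f
  · exact ⟨fun φ h => hcl _ h (by simp [Fm.sub, self_mem_sub]),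
      fun t φs h j => hcl _ h (by
        simp only [Fm.sub, mem_insert, mem_biUnion, mem_univ, true_and]
        exact Or.inr ⟨j, self_mem_sub _⟩),
      fun i t φs h j => hcl _ h (by
        simp only [Fm.sub, mem_insert, mem_biUnion, mem_univ, true_and]
        exact Or.inr ⟨j, self_mem_sub _⟩)⟩
  · calc 2 ^ k * (𝒰.card * 2 ^ (Y - 1))
        ≤ 2 ^ ⌊x⌋₊ * (2 ^ (⌊x⌋₊ + 1) * 2 ^ (Y - 1)) :=
          Nat.mul_le_mul (Nat.pow_le_pow_right (by norm_num) hkY) (Nat.mul_le_mul_right _ hUY)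
      _ = 2 ^ (⌊x⌋₊ + (⌊x⌋₊ + 1 + (Y - 1))) := by rw [← pow_add, ← pow_add]
      _ ≤ 2 ^ (4 * Y) := Nat.pow_le_pow_right (by norm_num) (by omega)
      _ = 16 ^ Y := by rw [pow_mul]; norm_num

end Pool.Agent.J6H7.GX
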