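import Pool.Agent.J6H7.GX.Switch

/-!
Iterating the switching lemma, starting from a given partial partition. (Modelled on
`Helper600R2.Cnt.Levels`.)
-/

set_option linter.unusedSectionVars false
set_option autoImplicit false

namespace Pool.Agent.J6H7.GX

open Finset Pool.Agent.Helper600R2.Cnt

variable {N : ℕ}

/-- closed under subformulas -/
def Closed (𝓜 : Finset (MF N)) : Prop :=
  (∀ φ, MF.neg φ ∈ 𝓜 → φ ∈ 𝓜) ∧ ∀ t (φs : Fin t → MF N), MF.or t φs ∈ 𝓜 → ∀ j, φs j ∈ 𝓜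

theorem levels {q k D : ℕ} (hq : 1 ≤ q) (hD : 1 ≤ D) (hkD : q * D = k) (𝓜 : Finset (MF N))
    (hcl : Closed 𝓜) (hM : 𝓜.card ≤ 16 ^ D) (b : ℕ → ℕ) (d : ℕ)
    (r : PS N) (hr : IsPP q r) (hb0 : r.card = b 0)
    (hloc : ∀ T : DTree N, MF.atm (.inr T) ∈ 𝓜 → HasT q k (.atm (.inr T)) r k)
    (hstep : ∀ h < d, q * b (h + 1) < N ∧ b h ≤ b (h + 1) ∧
      16 * (2 * k * ((N - q * b (h + 1)) ^ q) ^ q * (N - q * b (h + 1)) ^ q) ≤
        b (h + 1) - b h) :
    ∀ h ≤ d, ∃ ρ : PS N, IsPP q ρ ∧ r ⊆ ρ ∧ ρ.card = b h ∧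
      ∀ φ ∈ 𝓜, φ.dep ≤ h → HasT q k φ ρ k := by
  classical
  have hqk : q ≤ k := by
    rw [← hkD]
    exact Nat.le_mul_of_pos_right q hD
  have hk : 1 ≤ k := hq.trans hqk
  have hatm : ∀ (ρ : PS N), r ⊆ ρ → ∀ e : Atom N, MF.atm e ∈ 𝓜 → HasT q k (.atm e) ρ k := by
    intro ρ hρ e he
    rcases e with e | T
    · exact HasT.var hq e ρ k hqk
    · exact (hloc T he).persist hρ
  intro h
  induction h with
  | zero =>
    intro _
    refine ⟨r, hr, subset_rfl, hb0, ?_⟩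
    intro φ
    induction φ with
    | cst c => intro _ _; exact HasT.cst c r k
    | atm e => intro he _; exact hatm r subset_rfl e he
    | neg φ ih =>
      intro hφ hd
      exact (ih (hcl.1 φ hφ) hd).neg
    | or t φs ih =>
      intro _ hd
      simp only [MF.dep] at hd
      omega
  | succ h ih =>
    intro hh
    obtain ⟨ρ0, h1, hr0, h2, h3⟩ := ih (by omega)
    obtain ⟨s1, s2, s3⟩ := hstep h (by omega)
    obtain ⟨ρ, g1, g2, g3, g4⟩ := step hq hk h1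
      (𝓜.filter (fun φ => (∃ (t : ℕ) (φs : Fin t → MF N), φ = .or t φs) ∧ φ.dep ≤ h + 1))
      (b (h + 1)) D hkD s1 (by rw [h2]; exact s2) (by rw [h2]; exact s3)
      ((card_filter_le _ _).trans hM) (by
        intro φ hφ
        rw [mem_filter] at hφ
        obtain ⟨a1, ⟨t, φs, rfl⟩, a3⟩ := hφ
        refine ⟨t, φs, rfl, fun j => h3 _ (hcl.2 t φs a1 j) ?_⟩
        have := MF.dep_lt φs j
        omega)
    refine ⟨ρ, g1, hr0.trans g2, g3, ?_⟩
    intro φ
    induction φ with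
    | cst c => intro _ _; exact HasT.cst c ρ k
    | atm e => intro he _; exact hatm ρ (hr0.trans g2) e he
    | neg φ ih =>
      intro hφ hd
      exact (ih (hcl.1 φ hφ) hd).neg
    | or t φs ih =>
      intro hφ hd
      apply g4
      rw [mem_filter]
      exact ⟨hφ, ⟨t, φs, rfl⟩, hd⟩

end Pool.Agent.J6H7.GX
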