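import Pool.Agent.J6H7.GX.Switch

/-!
# A random partial partition makes decision trees shallow
-/

set_option linter.unusedSectionVars false
set_option autoImplicit false

namespace Pool.Agent.J6H7.GX

open Finset Pool.Agent.Helper600R2.Cnt

variable {N q k : ℕ}

open Classical in
/-- the block of `y` that contains `v` -/
noncomputable def blkAt (y : PS N) (v : Fin N) : Option (Finset (Fin N)) :=
  if h : ∃ B ∈ y, v ∈ B then some h.choose else none

lemma blkAt_some {y : PS N} {v : Fin N} {B : Finset (Fin N)} (h : blkAt y v = some B) :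
    B ∈ y ∧ v ∈ B := by
  classical
  unfold blkAt at h
  split_ifs at h with h1
  rw [Option.some.injEq] at h
  rw [← h]
  exact h1.choose_spec

lemma blkAt_none {y : PS N} {v : Fin N} (h : blkAt y v = none) {B : Finset (Fin N)}
    (hB : B ∈ y) (hv : v ∈ B) : False := by
  classical
  unfold blkAt at h
  rw [dif_pos ⟨B, hB, hv⟩] at h
  exact absurd h (by simp)

lemma blkAt_eq {y : PS N} (hy : IsPP q y) {v : Fin N} {B : Finset (Fin N)} (hB : B ∈ y)
    (hv : v ∈ B) : blkAt y v = some B := by
  cases h : blkAt y v with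
  | none => exact (blkAt_none h hB hv).elim
  | some C =>
    obtain ⟨h1, h2⟩ := blkAt_some h
    rw [hy.eq_of_mem hB h1 hv h2]

/-- the blocks of `y` which are found on the path of the tree -/
noncomputable def found (y : PS N) : DTree N → PS N
  | .leaf _ => ∅
  | .ask v ch => match blkAt y v with
    | none => ∅
    | some B => insert B (found y (ch B))

lemma found_none {y : PS N} {v : Fin N} {ch : Finset (Fin N) → DTree N}
    (h : blkAt y v = none) : found y (.ask v ch) = ∅ := by
  simp only [found, h]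

lemma found_some {y : PS N} {v : Fin N} {ch : Finset (Fin N) → DTree N} {B : Finset (Fin N)}
    (h : blkAt y v = some B) : found y (.ask v ch) = insert B (found y (ch B)) := by
  simp only [found, h]

lemma found_sub (y : PS N) (T : DTree N) : found y T ⊆ y := by
  induction T with
  | leaf c => exact empty_subset _
  | ask v ch ih =>
    cases h : blkAt y v with
    | none => rw [found_none h]; exact empty_subset _
    | some B =>
      rw [found_some h]
      exact insert_subset_iff.mpr ⟨(blkAt_some h).1, ih B⟩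

lemma found_card (y : PS N) (T : DTree N) : (found y T).card ≤ T.depth := by
  induction T with
  | leaf c => exact Nat.zero_le _
  | ask v ch ih =>
    cases h : blkAt y v with
    | none => rw [found_none h]; exact Nat.zero_le _
    | some B =>
      rw [found_some h]
      refine (card_insert_le _ _).trans ?_
      have h1 : (ch B).depth ≤ univ.sup (fun B => (ch B).depth) :=
        Finset.le_sup (f := fun B => (ch B).depth) (mem_univ B)
      have h2 := ih B
      simp only [DTree.depth]
      omega

lemma found_stable {y : PS N} (hy : IsPP q y) {z : PS N} (hz : z ⊆ y) (T : DTree N) :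
    found y T ⊆ z → found z T = found y T := by
  induction T with
  | leaf c => intro _; rfl
  | ask v ch ih =>
    intro h
    cases hv : blkAt y v with
    | none =>
      have h1 : blkAt z v = none := by
        cases hv' : blkAt z v with
        | none => rfl
        | some B => exact (blkAt_none hv (hz (blkAt_some hv').1) (blkAt_some hv').2).elim
      rw [found_none hv, found_none h1]
    | some B =>
      rw [found_some hv] at h ⊢
      obtain ⟨h1, h2⟩ := insert_subset_iff.mp h
      have h3 : blkAt z v = some B := blkAt_eq (hy.mono hz) h1 (blkAt_some hv).2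
      rw [found_some h3, ih B h2]

/-- the tree after the blocks `σ` have been revealed, cut off at height `m` -/
noncomputable def rs : DTree N → ℕ → PS N → DT N (PS N)
  | .leaf _, _, σ => .leaf σ
  | .ask v ch, m, σ => match blkAt σ v with
    | some B => rs (ch B) m σ
    | none => match m with
      | 0 => .leaf σ
      | m + 1 => .node {v} (fun τ => match blkAt τ v with
        | none => .leaf σ
        | some B => rs (ch B) m (insert B σ))

lemma rs_some {v : Fin N} {ch : Finset (Fin N) → DTree N} {m : ℕ} {σ : PS N}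
    {B : Finset (Fin N)} (h : blkAt σ v = some B) : rs (.ask v ch) m σ = rs (ch B) m σ := by
  cases m <;> simp only [rs, h]

lemma rs_zero {v : Fin N} {ch : Finset (Fin N) → DTree N} {σ : PS N}
    (h : blkAt σ v = none) : rs (.ask v ch) 0 σ = .leaf σ := by
  simp only [rs, h]

lemma rs_succ {v : Fin N} {ch : Finset (Fin N) → DTree N} {m : ℕ} {σ : PS N}
    (h : blkAt σ v = none) : rs (.ask v ch) (m + 1) σ =
      .node {v} (fun τ => match blkAt τ v with
        | none => .leaf σ
        | some B => rs (ch B) m (insert B σ)) := by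
  simp only [rs, h]

lemma rs_ht (T : DTree N) : ∀ (m : ℕ) (σ : PS N), (rs T m σ).HtLe m := by
  induction T with
  | leaf c => intro m σ; trivial
  | ask v ch ih =>
    intro m σ
    cases h : blkAt σ v with
    | some B => rw [rs_some h]; exact ih B m σ
    | none =>
      cases m with
      | zero => rw [rs_zero h]; trivial
      | succ m =>
        rw [rs_succ h]
        refine ⟨m, by simp [add_comm], fun τ => ?_⟩
        cases h' : blkAt τ v with
        | none => simp only [h']; trivial
        | some B => simp only [h']; exact ih B m _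

lemma rs_spec {y : PS N} (hy : IsPP q y) (T : DTree N) : ∀ (m : ℕ) (σ : PS N), σ ⊆ y →
    (found y T \ σ).card < m → ∀ σ', (rs T m σ).eval y = some σ' →
      σ ⊆ σ' ∧ σ' ⊆ y ∧ σ'.card ≤ σ.card + m ∧ ∃ b, T.Out σ' b := by
  classical
  induction T with
  | leaf c =>
    intro m σ hσ _ σ' h
    simp only [rs, DT.eval, Option.some.injEq] at h
    subst h
    exact ⟨subset_rfl, hσ, by omega, c, rfl⟩
  | ask v ch ih =>
    intro m σ hσ hm σ' h
    cases hv : blkAt σ v with
    | some B =>
      rw [rs_some hv] at h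
      obtain ⟨hB1, hB2⟩ := blkAt_some hv
      have hvy : blkAt y v = some B := blkAt_eq hy (hσ hB1) hB2
      rw [found_some hvy] at hm
      have hm' : (found y (ch B) \ σ).card < m :=
        (card_le_card (sdiff_subset_sdiff (subset_insert _ _) subset_rfl)).trans_lt hm
      obtain ⟨a1, a2, a3, b, a4⟩ := ih B m σ hσ hm' σ' h
      exact ⟨a1, a2, a3, b, B, a1 hB1, hB2, a4⟩
    | none =>
      cases m with
      | zero => exact absurd hm (Nat.not_lt_zero _)
      | succ m =>
        rw [rs_succ hv, DT.eval] at h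
        by_cases hc : {v} ⊆ cov y
        · rw [if_pos hc] at h
          obtain ⟨B, hB, hvB⟩ := mem_cov.mp (hc (mem_singleton_self v))
          have h1 : blkAt (mt {v} y) v = some B := by
            apply blkAt_eq (hy.mono (mt_subset _ _)) _ hvB
            exact mem_mt.mpr ⟨hB, v, mem_singleton_self v, hvB⟩
          rw [h1] at h
          simp only at h
          have hBσ : B ∉ σ := fun hBσ => blkAt_none hv hBσ hvB
          have hvy : blkAt y v = some B := blkAt_eq hy hB hvB
          rw [found_some hvy] at hm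
          have hm' : (found y (ch B) \ insert B σ).card < m := by
            have e1 : insert B (found y (ch B) \ insert B σ) ⊆
                insert B (found y (ch B)) \ σ := by
              intro C hC
              rw [mem_insert, mem_sdiff, mem_insert] at hC
              rw [mem_sdiff, mem_insert]
              rcases hC with rfl | ⟨hC1, hC2⟩
              · exact ⟨Or.inl rfl, hBσ⟩
              · exact ⟨Or.inr hC1, fun h => hC2 (Or.inr h)⟩
            have e2 := card_le_card e1
            rw [card_insert_of_notMem (by simp)] at e2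
            omega
          obtain ⟨a1, a2, a3, b, a4⟩ := ih B m (insert B σ)
            (insert_subset_iff.mpr ⟨hB, hσ⟩) hm' σ' h
          refine ⟨(subset_insert _ _).trans a1, a2, ?_, b, B, a1 (mem_insert_self _ _), hvB, a4⟩
          have := card_insert_le B σ
          omega
        · rw [if_neg hc] at h
          exact absurd h (by simp)

/-- the tree is shallow once `ρ` is known -/
def Few (q : ℕ) (T : DTree N) (ρ : PS N) (m : ℕ) : Prop :=
  ∀ y, IsPP q y → ρ ⊆ y → (found y T \ ρ).card < m

lemma Few.hasT {T : DTree N} {ρ : PS N} (h : Few q T ρ k) : HasT q k (.atm (.inr T)) ρ k := by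
  refine ⟨rs T k ρ, rs_ht T k ρ, fun y hy hρ σ hσ => ?_⟩
  obtain ⟨a1, a2, a3, b, a4⟩ := rs_spec hy T k ρ hρ (h y hy hρ) σ hσ
  refine ⟨a1, a2, a3, ?_⟩
  cases b with
  | true => exact Or.inl a4
  | false => exact Or.inr a4

lemma Few.mono {T : DTree N} {ρ ρ' : PS N} {m : ℕ} (h : Few q T ρ m) (hρ : ρ ⊆ ρ') :
    Few q T ρ' m := by
  intro y hy hy'
  exact (card_le_card (sdiff_subset_sdiff subset_rfl hρ)).trans_lt (h y hy (hρ.trans hy'))

open Classical in
/-- few partial partitions do not make the tree shallow -/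
lemma card_notFew {b m r : ℕ} (hb : 1 ≤ b) (T : DTree N) (hT : T.depth ≤ r)
    (hr : 32 * r * (N - q * b) ^ q ≤ b) :
    (((QQ q (∅ : PS N) b).filter (fun ρ => ¬ Few q T ρ m)).card : ℝ) * 32 ^ m ≤
      2 * ((QQ q (∅ : PS N) b).card : ℝ) := by
  classical
  have hsub : (QQ q (∅ : PS N) b).filter (fun ρ => ¬ Few q T ρ m) ⊆
      (Finset.Ico m (r + 1)).biUnion (fun s => (QQ q (∅ : PS N) (b + s)).biUnion (fun ρ' =>
        (powersetCard s (found ρ' T)).image (fun S => ρ' \ S))) := by
    intro ρ hρ
    obtain ⟨h1, h2⟩ := mem_filter.mp hρ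
    obtain ⟨g1, -, g3⟩ := mem_QQ.mp h1
    unfold Few at h2
    push Not at h2
    obtain ⟨y, hy1, hy2, hy3⟩ := h2
    have hsub : ρ ∪ found y T ⊆ y := union_subset hy2 (found_sub y T)
    have hst : found (ρ ∪ found y T) T = found y T :=
      found_stable hy1 hsub T subset_union_right
    have hc1 : (found y T \ ρ).card ≤ r :=
      (card_le_card sdiff_subset).trans ((found_card y T).trans hT)
    rw [mem_biUnion]
    refine ⟨(found y T \ ρ).card, by rw [mem_Ico]; omega, ?_⟩
    rw [mem_biUnion]
    refine ⟨ρ ∪ found y T, mem_QQ.mpr ⟨hy1.mono hsub, empty_subset _, ?_⟩, ?_⟩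
    · have e1 : ρ ∪ found y T = ρ ∪ (found y T \ ρ) := by simp
      rw [e1, card_union_of_disjoint disjoint_sdiff, g3]
    · rw [mem_image]
      refine ⟨found y T \ ρ, ?_, ?_⟩
      · rw [hst]
        exact mem_powersetCard.mpr ⟨sdiff_subset, rfl⟩
      · ext C
        simp only [mem_sdiff, mem_union]
        constructor
        · rintro ⟨h | h, h'⟩
          · exact h
          · by_contra hC
            exact h' ⟨h, hC⟩
        · intro h
          exact ⟨Or.inl h, fun h' => h'.2 h⟩
  have hcard : (((QQ q (∅ : PS N) b).filter (fun ρ => ¬ Few q T ρ m)).card : ℝ) ≤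
      ∑ s ∈ Finset.Ico m (r + 1), ((QQ q (∅ : PS N) (b + s)).card : ℝ) * (r : ℝ) ^ s := by
    have h1 := (card_le_card hsub).trans card_biUnion_le
    refine le_trans (b := ((∑ s ∈ Finset.Ico m (r + 1), ((QQ q (∅ : PS N) (b + s)).biUnion
      (fun ρ' => (powersetCard s (found ρ' T)).image (fun S => ρ' \ S))).card : ℕ) : ℝ))
      (by exact_mod_cast h1) ?_
    push_cast
    refine Finset.sum_le_sum (fun s _ => ?_)
    have h2 : ((QQ q (∅ : PS N) (b + s)).biUnion
      (fun ρ' => (powersetCard s (found ρ' T)).image (fun S => ρ' \ S))).card ≤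
        (QQ q (∅ : PS N) (b + s)).card * r ^ s := by
      refine card_biUnion_le.trans ?_
      rw [← smul_eq_mul, ← Finset.sum_const]
      refine Finset.sum_le_sum (fun ρ' _ => card_image_le.trans ?_)
      rw [card_powersetCard]
      exact (Nat.choose_le_pow _ _).trans
        (Nat.pow_le_pow_left ((found_card ρ' T).trans hT) s)
    exact_mod_cast h2
  have hb0 : (0 : ℝ) < b := by exact_mod_cast hb
  have hterm : ∀ s, ((QQ q (∅ : PS N) (b + s)).card : ℝ) * (r : ℝ) ^ s ≤
      ((QQ q (∅ : PS N) b).card : ℝ) * (1 / 32) ^ s := by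
    intro s
    have h1 := QQ_add (q := q) (∅ : PS N) b (by simp) s
    rw [card_empty, Nat.sub_zero] at h1
    have h2 : ((QQ q (∅ : PS N) (b + s)).card : ℝ) * (b : ℝ) ^ s ≤
        ((QQ q (∅ : PS N) b).card : ℝ) * (((N - q * b : ℕ) : ℝ) ^ q) ^ s := by exact_mod_cast h1
    have h3 : (32 : ℝ) * r * ((N - q * b : ℕ) : ℝ) ^ q ≤ b := by exact_mod_cast hr
    have h4 : (((N - q * b : ℕ) : ℝ) ^ q * r / b) ^ s ≤ (1 / 32) ^ s := by
      apply pow_le_pow_left₀ (by positivity)
      rw [div_le_iff₀ hb0]
      linarith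
    calc ((QQ q (∅ : PS N) (b + s)).card : ℝ) * (r : ℝ) ^ s
        = (((QQ q (∅ : PS N) (b + s)).card : ℝ) * (b : ℝ) ^ s) * (r / b) ^ s := by
          rw [div_pow]; field_simp
      _ ≤ (((QQ q (∅ : PS N) b).card : ℝ) * (((N - q * b : ℕ) : ℝ) ^ q) ^ s) * (r / b) ^ s :=
          mul_le_mul_of_nonneg_right h2 (by positivity)
      _ = ((QQ q (∅ : PS N) b).card : ℝ) * (((N - q * b : ℕ) : ℝ) ^ q * r / b) ^ s := by
          rw [mul_assoc, ← mul_pow]; congr 2; ring
      _ ≤ _ := mul_le_mul_of_nonneg_left h4 (Nat.cast_nonneg _)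
  have hgeom : ∀ n : ℕ, ∑ s ∈ Finset.Ico m n, (1 / 32 : ℝ) ^ s ≤ 2 * (1 / 32) ^ m := by
    intro n
    rcases le_total m n with hmn | hmn
    · have h1 : ∀ j : ℕ, ∑ s ∈ Finset.Ico m (m + j), (1 / 32 : ℝ) ^ s ≤
          2 * (1 / 32) ^ m - 2 * (1 / 32) ^ (m + j) := by
        intro j
        induction j with
        | zero =>
          rw [Nat.add_zero, Finset.Ico_self, Finset.sum_empty, sub_self]
        | succ j ih =>
          rw [← Nat.add_assoc, Finset.sum_Ico_succ_top (by omega)]
          have h2 : (1 / 32 : ℝ) ^ (m + j + 1) = (1 / 32) ^ (m + j) * (1 / 32) := pow_succ _ _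
          have h3 : (0 : ℝ) ≤ (1 / 32) ^ (m + j) := by positivity
          rw [h2]
          linarith
      obtain ⟨j, rfl⟩ := Nat.exists_eq_add_of_le hmn
      have h2 := h1 j
      have h3 : (0 : ℝ) ≤ (1 / 32) ^ (m + j) := by positivity
      linarith
    · rw [Finset.Ico_eq_empty_of_le hmn, Finset.sum_empty]
      positivity
  have hfin : (((QQ q (∅ : PS N) b).filter (fun ρ => ¬ Few q T ρ m)).card : ℝ) ≤
      ((QQ q (∅ : PS N) b).card : ℝ) * (2 * (1 / 32) ^ m) := by
    refine hcard.trans ?_
    refine (Finset.sum_le_sum (fun s _ => hterm s)).trans ?_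
    rw [← Finset.mul_sum]
    exact mul_le_mul_of_nonneg_left (hgeom _) (Nat.cast_nonneg _)
  calc (((QQ q (∅ : PS N) b).filter (fun ρ => ¬ Few q T ρ m)).card : ℝ) * 32 ^ m
      ≤ (((QQ q (∅ : PS N) b).card : ℝ) * (2 * (1 / 32) ^ m)) * 32 ^ m :=
        mul_le_mul_of_nonneg_right hfin (by positivity)
    _ = 2 * ((QQ q (∅ : PS N) b).card : ℝ) * ((1 / 32) ^ m * 32 ^ m) := by ring
    _ = _ := by rw [← mul_pow]; norm_num

/-- a partial partition that makes all trees of a family shallow -/
theorem exists_root (hq : 1 ≤ q) {b m r : ℕ} (hb : 1 ≤ b) (hbN : q * b ≤ N)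
    (hr : 32 * r * (N - q * b) ^ q ≤ b) (S : Finset (DTree N)) (hS : ∀ T ∈ S, T.depth ≤ r)
    (hcard : 2 * S.card < 32 ^ m) :
    ∃ ρ : PS N, IsPP q ρ ∧ ρ.card = b ∧ ∀ T ∈ S, Few q T ρ m := by
  classical
  have hne : (QQ q (∅ : PS N) b).Nonempty := by
    have := QQ_nonempty hq (IsPP.empty q : IsPP q (∅ : PS N)) b (by simpa using hbN)
    simpa using this
  by_contra hcon
  push Not at hcon
  have h1 : QQ q (∅ : PS N) b ⊆
      S.biUnion (fun T => (QQ q (∅ : PS N) b).filter (fun ρ => ¬ Few q T ρ m)) := by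
    intro ρ hρ
    obtain ⟨g1, g2, g3⟩ := mem_QQ.mp hρ
    obtain ⟨T, hT, hT'⟩ := hcon ρ g1 g3
    rw [mem_biUnion]
    exact ⟨T, hT, mem_filter.mpr ⟨hρ, hT'⟩⟩
  have h2 : ((QQ q (∅ : PS N) b).card : ℝ) ≤
      ∑ T ∈ S, (((QQ q (∅ : PS N) b).filter (fun ρ => ¬ Few q T ρ m)).card : ℝ) := by
    exact_mod_cast (card_le_card h1).trans card_biUnion_le
  have h3 : ((QQ q (∅ : PS N) b).card : ℝ) * 32 ^ m ≤
      (S.card : ℝ) * (2 * ((QQ q (∅ : PS N) b).card : ℝ)) := by
    calc ((QQ q (∅ : PS N) b).card : ℝ) * 32 ^ m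
        ≤ (∑ T ∈ S, (((QQ q (∅ : PS N) b).filter (fun ρ => ¬ Few q T ρ m)).card : ℝ)) * 32 ^ m :=
          mul_le_mul_of_nonneg_right h2 (by positivity)
      _ = ∑ T ∈ S, (((QQ q (∅ : PS N) b).filter (fun ρ => ¬ Few q T ρ m)).card : ℝ) * 32 ^ m := by
          rw [Finset.sum_mul]
      _ ≤ ∑ _T ∈ S, 2 * ((QQ q (∅ : PS N) b).card : ℝ) :=
          Finset.sum_le_sum (fun T hT => card_notFew hb T (hS T hT) hr)
      _ = _ := by rw [Finset.sum_const, nsmul_eq_mul]
  have hpos : (0 : ℝ) < ((QQ q (∅ : PS N) b).card : ℝ) := by exact_mod_cast hne.card_pos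
  have h4 : (2 : ℝ) * S.card < 32 ^ m := by exact_mod_cast hcard
  nlinarith

end Pool.Agent.J6H7.GX
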