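import Pool.Agent.J6H7.GX.Defs
import Pool.Agent.J6H7.GX.Shrink
import Pool.Agent.J6H7.GX.Deg

/-!
# Formulas which are verified by decision trees, and guesses for the further extension variables
-/

set_option linter.unusedSectionVars false
set_option autoImplicit false

namespace Pool.Agent.J6H7.GX

open Finset Pool.Agent.Helper600R2 Pool.Agent.Helper600R2.Cnt

section forcing

variable {p q N κ k : ℕ} {E : Type}

/-- the leaf for a variable; the further extension variables are replaced by the constants `β` -/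
def bk (X : ExtSys p q N κ E) (β : Fin κ → Bool) : XVar q N E κ → MF N
  | .inl A => .atm (.inl A.1)
  | .inr (.inl e) => .atm (.inr (X.tree e β))
  | .inr (.inr j) => .cst (β j)

lemma bk_leaf (X : ExtSys p q N κ E) (β : Fin κ → Bool) (a : XVar q N E κ) :
    IsLeaf (bk X β a) := by
  rcases a with A | e | j <;> trivial

/-- a determined formula is forced -/
theorem W_det (X : ExtSys p q N κ E) (β : Fin κ → Bool) (tvf : MF N → Bool) {π : PS N}
    (φ : Fm p (XVar q N E κ)) : ∀ {b : Bool}, Det X β π φ b → W q k (rd (bk X β) tvf φ) b π := by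
  induction φ with
  | var x =>
    intro b h
    rcases x with A | e | j
    · cases b with
      | true =>
        simp only [Det, if_true] at h
        simp only [rd, bk, W, if_true]
        exact h
      | false =>
        simp only [Det, Bool.false_eq_true, if_false] at h
        simp only [rd, bk, W, Bool.false_eq_true, if_false]
        exact ⟨h.1, Or.inr h.2⟩
    · exact h
    · exact h
  | neg φ ih =>
    intro b h
    simp only [Det] at h
    simp only [rd, W]
    exact ih h
  | or t φs ih =>
    intro b h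
    cases b with
    | true =>
      simp only [Det, if_true] at h
      obtain ⟨j, hj⟩ := h
      simp only [rd]
      rw [W_or_true]
      exact ⟨j, ih j hj⟩
    | false =>
      simp only [Det, Bool.false_eq_true, if_false] at h
      simp only [rd]
      rw [W_or_false]
      intro π' g1 g2 g3 j hj
      refine W_cons _ g1 ?_ hj (W_mono _ (ih j (h j)) g2 g1)
      refine le_trans (Nat.mul_le_mul_left q (Nat.add_le_add_left (Nat.mul_le_mul_left k ?_) _)) g3
      exact (MF.dep_lt (fun j => rd (bk X β) tvf (φs j)) j).le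
  | md i t φs _ => intro b h; exact h.elim

/-- the tree of a formula, followed by another decision tree -/
noncomputable def ckT (q k : ℕ) (ρ : PS N) (T : DTree N) (ψ : MF N) : DT N (PS N) :=
  (tr q k ρ ψ).bind (fun _ => rs T k ρ)

lemma ckT_ht {ρ : PS N} (T : DTree N) (ψ : MF N) : (ckT q k ρ T ψ).HtLe (k + k) :=
  DT.HtLe.bind (fun _ => rs_ht T k ρ) (tr_ht _)

theorem check_tree {ρ y : PS N} (hy : IsPP q y) (hρy : ρ ⊆ y) (X : ExtSys p q N κ E)
    (β : Fin κ → Bool) (tvf : MF N → Bool) {T : DTree N} (hTk : Few q T ρ k)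
    {φ : Fm p (XVar q N E κ)}
    (h3 : ∀ (π : PS N) (b : Bool), IsPP q π → T.Out π b → Det X β π φ true)
    (hroom : q * (ρ.card + 2 * k + k * (rd (bk X β) tvf φ).dep) ≤ N)
    (hT : HasT q k (rd (bk X β) tvf φ) ρ k)
    (hck : ((ckT q k ρ T (rd (bk X β) tvf φ)).eval y).isNone = false) :
    tv q k ρ y (rd (bk X β) tvf φ) = true := by
  classical
  set ψ := rd (bk X β) tvf φ with hψ
  simp only [ckT, DT.eval_bind] at hck
  cases hσ : (tr q k ρ ψ).eval y with
  | none => rw [hσ] at hck; simp at hck
  | some σ =>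
    obtain ⟨a1, a2, a3, a4⟩ := tr_rep hT y hy hρy σ hσ
    rw [hσ, Option.bind_some] at hck
    cases hσ' : (rs T k ρ).eval y with
    | none => rw [hσ'] at hck; simp at hck
    | some σ' =>
      obtain ⟨b1, b2, b3, b, b4⟩ := rs_spec hy T k ρ hρy (hTk y hy hρy) σ' hσ'
      rw [tv_iff]
      refine ⟨σ, hσ, ?_⟩
      rcases a4 with h | h
      · exact h
      · exfalso
        have hW := W_det (k := k) X β tvf φ (h3 σ' b (hy.mono b2) b4)
        exact consist hy hρy hroom b1 b2 b3 a1 a2 a3 hW h

lemma rd_congr {α : Type} {blk blk' : α → MF N} (tvf : MF N → Bool) (φ : Fm p α)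
    (h : Uses (fun x => blk x = blk' x) φ) : rd blk tvf φ = rd blk' tvf φ := by
  induction φ with
  | var x => exact h
  | neg φ ih => simp only [rd, ih h]
  | or t φs ih =>
    simp only [rd]
    congr 1
    funext j
    exact ih j (h j)
  | md i t φs ih =>
    simp only [rd]
    congr 1
    have h' : ∀ j, rd blk tvf (φs j) = rd blk' tvf (φs j) := fun j => ih j (h j)
    simp only [h']

lemma Uses.imp {α : Type} {P P' : α → Prop} (hPP : ∀ x, P x → P' x) (φ : Fm p α)
    (h : Uses P φ) : Uses P' φ := by
  induction φ with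
  | var x => exact hPP x h
  | neg φ ih => exact ih h
  | or t φs ih => exact fun j => ih j (h j)
  | md i t φs ih => exact fun j => ih j (h j)

/-- the value of the definition of a further extension variable only depends on the values of the
earlier ones -/
lemma rd_D (X : ExtSys p q N κ E) (tvf : MF N → Bool) {β β' : Fin κ → Bool} (j : Fin κ)
    (h : ∀ i, i < j → β i = β' i) :
    rd (bk X β) tvf (X.D j) = rd (bk X β') tvf (X.D j) := by
  apply rd_congr
  refine Uses.imp ?_ _ (X.D_lev j)
  intro x hx
  rcases x with A | e | i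
  · rfl
  · simp only [bk]
    have h1 : X.lev e ≤ j := hx.1 e rfl
    rw [X.tree_lev e β β' (fun i hi => h i (Fin.lt_def.mpr (lt_of_lt_of_le hi h1)))]
  · simp only [bk]
    rw [h i (hx.2 i rfl)]

/-- the clauses of the counting principle are verified by trees of depth one -/
theorem IsClause.treeAx (X : ExtSys p q N κ E) {M : ℕ} (hM : M ≤ N) {φ : Fm p (XVar q N E κ)}
    (h : IsClause φ) : TreeAx X M φ := by
  have key : ∀ v : Fin N, (DTree.ask v (fun _ => DTree.leaf true)).depth * M ≤ N := by
    intro v
    have h1 : (DTree.ask v (fun _ => DTree.leaf true) : DTree N).depth = 1 := by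
      simp only [DTree.depth]
      rw [Finset.sup_const (by exact ⟨∅, mem_univ _⟩)]
    rw [h1, one_mul]
    exact hM
  intro β
  obtain ⟨t, φs, rfl, ⟨v, hv⟩ | ⟨A, B, hAB, hdis, ⟨j, hj⟩, ⟨j', hj'⟩⟩⟩ := h
  · refine ⟨.ask v (fun _ => .leaf true), key v, ?_⟩
    intro π b hπ hout
    obtain ⟨C, hC, hvC, -⟩ := hout
    obtain ⟨i, hi⟩ := hv ⟨C, hπ.1 C hC⟩ hvC
    simp only [Det, if_true]
    refine ⟨i, ?_⟩
    rw [hi]
    simp only [Det, if_true]
    exact hC
  · obtain ⟨u, huA, huB⟩ := Finset.not_disjoint_iff.mp hdis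
    refine ⟨.ask u (fun _ => .leaf true), key u, ?_⟩
    intro π b hπ hout
    obtain ⟨C, hC, huC, -⟩ := hout
    have hdet : ∀ g : Var q N, u ∈ g.1 → C ≠ g.1 → Det X β π (.neg (.var (.inl g))) true := by
      intro g hug hne
      simp only [Det, Bool.not_true, Bool.false_eq_true, if_false]
      refine ⟨fun hg => hne (hπ.eq_of_mem hC hg huC hug), ?_⟩
      exact Finset.not_disjoint_iff.mpr ⟨u, hug, mem_cov.mpr ⟨C, hC, huC⟩⟩
    simp only [Det, if_true]
    by_cases hCA : C = A.1
    · refine ⟨j', ?_⟩
      rw [hj']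
      exact hdet B huB (fun h => hAB (Subtype.ext (hCA.symm.trans h)))
    · refine ⟨j, ?_⟩
      rw [hj]
      exact hdet A huA hCA

/-- the extension axioms of a shallow extension variable `e` are verified by its tree, if the
formula `Ψ` is determined by the answers to the questions of this tree -/
theorem ext_treeAx (X : ExtSys p q N κ E) {M : ℕ} {e : E} {Ψ : Fm p (XVar q N E κ)}
    (hdep : ∀ β, (X.tree e β).depth * M ≤ N)
    (hΨ : ∀ β π b, IsPP q π → (X.tree e β).Out π b → Det X β π Ψ b) :
    TreeAx X M (.or 2 ![.var (.inr (.inl e)), .neg Ψ]) ∧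
      TreeAx X M (.or 2 ![.neg (.var (.inr (.inl e))), Ψ]) := by
  constructor
  · intro β
    refine ⟨X.tree e β, hdep β, fun π b hπ hout => ?_⟩
    have h1 := hΨ β π b hπ hout
    simp only [Det, if_true]
    cases b with
    | true => exact ⟨0, hout⟩
    | false => exact ⟨1, h1⟩
  · intro β
    refine ⟨X.tree e β, hdep β, fun π b hπ hout => ?_⟩
    have h1 := hΨ β π b hπ hout
    simp only [Det, if_true]
    cases b with
    | true => exact ⟨1, h1⟩
    | false => exact ⟨0, hout⟩

end forcing

section guess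

/-- acyclic systems of equations have a unique solution -/
theorem exists_fix {κ : ℕ} (f : (Fin κ → Bool) → Fin κ → Bool)
    (hf : ∀ β β' : Fin κ → Bool, ∀ j, (∀ i, i < j → β i = β' i) → f β j = f β' j) :
    ∃ β, (∀ j, β j = f β j) ∧ ∀ β', (∀ j, β' j = f β' j) → β' = β := by
  classical
  have h1 : ∀ n ≤ κ, ∃ β : Fin κ → Bool, ∀ j : Fin κ, (j : ℕ) < n → β j = f β j := by
    intro n
    induction n with
    | zero => intro _; exact ⟨fun _ => false, fun j hj => absurd hj (Nat.not_lt_zero _)⟩
    | succ n ih =>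
      intro hn
      obtain ⟨β, hβ⟩ := ih (by omega)
      let m : Fin κ := ⟨n, by omega⟩
      refine ⟨Function.update β m (f β m), ?_⟩
      intro j hj
      have hag : ∀ i, i < j → Function.update β m (f β m) i = β i := by
        intro i hi
        rw [Function.update_of_ne]
        intro h
        have h3 : (i : ℕ) = n := by rw [h]
        have h4 : (i : ℕ) < j := hi
        omega
      rw [hf _ _ j hag]
      by_cases hjm : j = m
      · subst hjm; rw [Function.update_self]
      · rw [Function.update_of_ne hjm]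
        apply hβ
        have : (j : ℕ) ≠ n := fun h => hjm (Fin.ext h)
        omega
  obtain ⟨β, hβ⟩ := h1 κ le_rfl
  refine ⟨β, fun j => hβ j j.2, ?_⟩
  intro β' hβ'
  have h2 : ∀ n : ℕ, ∀ j : Fin κ, (j : ℕ) = n → β' j = β j := by
    intro n
    induction n using Nat.strong_induction_on with
    | _ n ih =>
      intro j hj
      rw [hβ' j, hβ j j.2]
      apply hf
      intro i hi
      exact ih i (by rw [← hj]; exact hi) i rfl
  funext j
  exact h2 j j rfl

variable {Vt E : Type} [Fintype Vt] [Fintype E] [DecidableEq Vt] [DecidableEq E]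
  {hd tl : E → Vt} {q : ℕ} [NeZero q] {K : Type*} [Field K] {ψ : AddChar (ZMod q) K}
  {b : Vt → ZMod q} {κ : ℕ} {g : (Fin κ → Bool) → Fin κ → (E → ZMod q) → Bool}
  {βz : (E → ZMod q) → Fin κ → Bool}

lemma guess_eq (h1 : ∀ z j, βz z j = g (βz z) j z)
    (h2 : ∀ z β', (∀ j, β' j = g β' j z) → β' = βz z)
    (F : (Fin κ → Bool) → (E → ZMod q) → K) :
    (fun z => F (βz z) z) =
      ∑ β, F β * ∏ j, (if β j = true then toK K (g β j) else 1 - toK K (g β j)) := by
  funext z
  rw [Finset.sum_apply, Finset.sum_eq_single (βz z)]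
  · rw [Pi.mul_apply, Finset.prod_apply, Finset.prod_eq_one, mul_one]
    intro j _
    have h := h1 z j
    cases hb : βz z j with
    | true =>
      rw [hb] at h
      simp [toK, ← h]
    | false =>
      rw [hb] at h
      simp [toK, ← h]
  · intro β _ hne
    have : ∃ j, ¬ (β j = g β j z) := by
      by_contra hcon
      push Not at hcon
      exact hne (h2 z β hcon)
    obtain ⟨j, hj⟩ := this
    rw [Pi.mul_apply, Finset.prod_apply, Finset.prod_eq_zero (mem_univ j), mul_zero]
    cases hb : β j <;> cases hg : g β j z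
    · rw [hb, hg] at hj; exact absurd rfl hj
    · simp [toK, hg]
    · simp [toK, hg]
    · rw [hb, hg] at hj; exact absurd rfl hj
  · intro h
    exact absurd (mem_univ _) h

lemma guess_factor (a : ℕ) (hg : ∀ β j, toK K (g β j) ∈ J (ι := E) (α := ZMod q) K a)
    (β : Fin κ → Bool) :
    (∏ j, (if β j = true then toK K (g β j) else 1 - toK K (g β j))) ∈
      J (ι := E) (α := ZMod q) K (κ * a) := by
  have h := J_prod (K := K) (univ : Finset (Fin κ))
    (fun j => if β j = true then toK K (g β j) else 1 - toK K (g β j)) (fun _ => a) (by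
      intro j _
      by_cases hA : β j = true
      · simp only [hA, if_true]
        exact hg β j
      · simp only [hA]
        exact Submodule.sub_mem _ (J_one _) (hg β j))
  simpa using h

lemma guess_J (h1 : ∀ z j, βz z j = g (βz z) j z)
    (h2 : ∀ z β', (∀ j, β' j = g β' j z) → β' = βz z) (a w : ℕ)
    (hg : ∀ β j, toK K (g β j) ∈ J (ι := E) (α := ZMod q) K a)
    (F : (Fin κ → Bool) → (E → ZMod q) → K)
    (hF : ∀ β, F β ∈ J (ι := E) (α := ZMod q) K w) :
    (fun z => F (βz z) z) ∈ J (ι := E) (α := ZMod q) K (w + κ * a) := by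
  rw [guess_eq h1 h2]
  exact Submodule.sum_mem _ (fun β _ => J_mul (hF β) (guess_factor a hg β))

lemma guess_NF (hψ : ψ.IsPrimitive) (hqK : (q : K) ≠ 0) (h1 : ∀ z j, βz z j = g (βz z) j z)
    (h2 : ∀ z β', (∀ j, β' j = g β' j z) → β' = βz z) (a w : ℕ)
    (hg : ∀ β j, toK K (g β j) ∈ J (ι := E) (α := ZMod q) K a)
    (F : (Fin κ → Bool) → (E → ZMod q) → K) (hF : ∀ β, F β ∈ NF hd tl ψ b w) :
    (fun z => F (βz z) z) ∈ NF hd tl ψ b (w + κ * a) := by
  rw [guess_eq h1 h2]
  exact Submodule.sum_mem _ (fun β _ => NF_mul hd tl ψ (hF β)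
    (J_le_DC ψ hψ hqK _ (guess_factor a hg β)))

end guess

end Pool.Agent.J6H7.GX
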