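import Pool.Agent.J6H7.GX.Core
import Pool.Agent.Helper600R2.Cnt.Final

/-!
# Choice of parameters

(Modelled on `Helper600R2.Cnt.Final` and `J6H27.EF.Num`.)
-/

set_option linter.unusedSectionVars false
set_option autoImplicit false

namespace Pool.Agent.J6H7.GX

open Finset Pool.Agent.Helper600R2 Pool.Agent.Helper600R2.Cnt

lemma wx_le {k p G d κ X : ℕ} (hp : 1 ≤ p) (hX : 1 ≤ X) (hk : k ≤ X) (hG : G + 1 ≤ X)
    (hκ : κ ≤ X) :
    wx k p G d κ ≤ (20 + 4 * p * (2 * p) ^ d + 8 * (2 * p) ^ d) * X ^ (d + 2) := by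
  have h0 := ww_le (k := k) (G := G) (d := d) hp hX hk hG
  have h1 : AA k p G d ≤ 4 * (2 * p) ^ d * X ^ (d + 1) := by
    unfold AA
    calc 4 * k * (2 * p * (G + 1)) ^ d ≤ 4 * X * (2 * p * X) ^ d :=
          Nat.mul_le_mul (Nat.mul_le_mul_left 4 hk)
            (Nat.pow_le_pow_left (Nat.mul_le_mul_left _ hG) d)
      _ = 4 * (2 * p) ^ d * X ^ (d + 1) := by rw [mul_pow, pow_succ]; ring
  have h2 : κ * AA k p G d ≤ 4 * (2 * p) ^ d * X ^ (d + 2) := by
    calc κ * AA k p G d ≤ X * (4 * (2 * p) ^ d * X ^ (d + 1)) := Nat.mul_le_mul hκ h1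
      _ = _ := by ring
  have h3 : wx k p G d κ = ww k p G d + κ * AA k p G d := rfl
  rw [h3]
  calc ww k p G d + κ * AA k p G d
      ≤ (20 + 4 * p * (2 * p) ^ d + 4 * (2 * p) ^ d) * X ^ (d + 2) +
        4 * (2 * p) ^ d * X ^ (d + 2) := Nat.add_le_add h0 h2
    _ = _ := by ring

open Classical in
/-- all formulas with constants for the further extension variables and the `md` subformulas -/
noncomputable def famX {p q N κ : ℕ} {E : Type} (X : ExtSys p q N κ E)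
    (𝒰 : Finset (Fm p (XVar q N E κ))) : Finset (MF N) :=
  univ.biUnion (fun β : Fin κ → Bool => fam (bk X β) 𝒰)

/-- the tree of a shallow extension variable -/
def g1 {p q N κ : ℕ} {E : Type} (X : ExtSys p q N κ E) (β : Fin κ → Bool) :
    Fm p (XVar q N E κ) → DTree N
  | .var (.inr (.inl e)) => X.tree e β
  | _ => .leaf true

open Classical in
/-- a tree which verifies the formula -/
noncomputable def g2 {p q N κ : ℕ} {E : Type} (X : ExtSys p q N κ E) (M : ℕ) (β : Fin κ → Bool)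
    (φ : Fm p (XVar q N E κ)) : DTree N :=
  if h : TreeAx X M φ then (h β).choose else .leaf true

open Classical in
/-- all the trees -/
noncomputable def trees {p q N κ : ℕ} {E : Type} (X : ExtSys p q N κ E) (M : ℕ)
    (𝒰 : Finset (Fm p (XVar q N E κ))) : Finset (DTree N) :=
  univ.biUnion (fun β : Fin κ → Bool => 𝒰.image (g1 X β) ∪ 𝒰.image (g2 X M β))

section

variable {p q N κ : ℕ} {E : Type} {X : ExtSys p q N κ E} {𝒰 : Finset (Fm p (XVar q N E κ))}

lemma card_betas (κ : ℕ) : (univ : Finset (Fin κ → Bool)).card = 2 ^ κ := by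
  rw [card_univ]; simp

lemma famX_closed (h𝒰 : ClosedFm 𝒰) : Closed (famX X 𝒰) := by
  classical
  constructor
  · intro φ hφ
    unfold famX at hφ ⊢
    rw [mem_biUnion] at hφ ⊢
    obtain ⟨β, hβ, h⟩ := hφ
    exact ⟨β, hβ, (fam_closed (bk X β) (bk_leaf X β) h𝒰).1 φ h⟩
  · intro t φs hφ j
    unfold famX at hφ ⊢
    rw [mem_biUnion] at hφ ⊢
    obtain ⟨β, hβ, h⟩ := hφ
    exact ⟨β, hβ, (fam_closed (bk X β) (bk_leaf X β) h𝒰).2 t φs h j⟩

lemma famX_card (G : ℕ) (hG : ∀ φ ∈ 𝒰, φ.tops.card ≤ G) :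
    (famX X 𝒰).card ≤ 2 ^ κ * (𝒰.card * 2 ^ G) := by
  classical
  unfold famX
  refine card_biUnion_le.trans ?_
  calc ∑ β : Fin κ → Bool, (fam (bk X β) 𝒰).card ≤ ∑ _β : Fin κ → Bool, 𝒰.card * 2 ^ G :=
        Finset.sum_le_sum (fun β _ => fam_card (bk X β) 𝒰 G hG)
    _ = _ := by rw [Finset.sum_const, card_betas, smul_eq_mul]

lemma mem_famX {φ : Fm p (XVar q N E κ)} (hφ : φ ∈ 𝒰) (β : Fin κ → Bool)
    (μ : Fm p (XVar q N E κ) → Bool) : subst (bk X β) μ φ ∈ famX X 𝒰 := by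
  classical
  unfold famX
  rw [mem_biUnion]
  exact ⟨β, mem_univ _, mem_fam (bk X β) hφ μ⟩

lemma exists_of_mem_famX {ψ : MF N} (h : ψ ∈ famX X 𝒰) :
    ∃ φ ∈ 𝒰, ∃ β μ, ψ = subst (bk X β) μ φ := by
  classical
  unfold famX at h
  rw [mem_biUnion] at h
  obtain ⟨β, -, h⟩ := h
  obtain ⟨φ, hφ, μ, rfl⟩ := exists_of_mem_fam _ h
  exact ⟨φ, hφ, β, μ, rfl⟩

lemma trees_card (M : ℕ) : (trees X M 𝒰).card ≤ 2 ^ κ * (2 * 𝒰.card) := by
  classical
  unfold trees
  refine card_biUnion_le.trans ?_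
  calc ∑ β : Fin κ → Bool, (𝒰.image (g1 X β) ∪ 𝒰.image (g2 X M β)).card
      ≤ ∑ _β : Fin κ → Bool, 2 * 𝒰.card := by
        refine Finset.sum_le_sum (fun β _ => (card_union_le _ _).trans ?_)
        have h1 := card_image_le (s := 𝒰) (f := g1 X β)
        have h2 := card_image_le (s := 𝒰) (f := g2 X M β)
        omega
    _ = _ := by rw [Finset.sum_const, card_betas, smul_eq_mul]

lemma trees_depth {M : ℕ}
    (hE : ∀ e, Fm.var (.inr (.inl e)) ∈ 𝒰 → ∀ β, (X.tree e β).depth * M ≤ N) :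
    ∀ T ∈ trees X M 𝒰, T.depth * M ≤ N := by
  classical
  intro T hT
  unfold trees at hT
  rw [mem_biUnion] at hT
  obtain ⟨β, -, hT⟩ := hT
  have hleaf : (DTree.leaf true : DTree N).depth * M ≤ N := by
    simp [DTree.depth]
  rcases mem_union.1 hT with hT | hT
  · obtain ⟨φ, hφ, rfl⟩ := mem_image.1 hT
    rcases φ with (A | e | j) | φ | ⟨t, φs⟩ | ⟨i, t, φs⟩
    · exact hleaf
    · exact hE e hφ β
    · exact hleaf
    · exact hleaf
    · exact hleaf
    · exact hleaf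
  · obtain ⟨φ, hφ, rfl⟩ := mem_image.1 hT
    unfold g2
    split_ifs with h
    · exact (h β).choose_spec.1
    · exact hleaf

lemma atm_mem_trees {M : ℕ} {T : DTree N} (h : MF.atm (.inr T) ∈ famX X 𝒰) :
    T ∈ trees X M 𝒰 := by
  classical
  obtain ⟨φ, hφ, β, μ, h⟩ := exists_of_mem_famX h
  cases φ with
  | var x =>
    rcases x with A | e | j
    · simp [subst, bk] at h
    · simp only [subst, bk, MF.atm.injEq, Sum.inr.injEq] at h
      subst h
      unfold trees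
      rw [mem_biUnion]
      exact ⟨β, mem_univ _, mem_union_left _ (mem_image.2 ⟨_, hφ, rfl⟩)⟩
    · simp [subst, bk] at h
  | neg φ => simp [subst] at h
  | or t φs => simp [subst] at h
  | md i t φs => simp [subst] at h

end

/-- the combinatorial core with explicit parameters -/
theorem core (p q : ℕ) (hp : p.Prime) (hq : 2 ≤ q) (hpq : ¬ p ∣ q) (d c : ℕ) :
    ∃ C : ℕ, 0 < C ∧ ∀ N Y κ M r b0 u : ℕ, 1 ≤ Y → κ ≤ Y → 1 ≤ b0 → q * b0 + u = N →
      32 * r * u ^ q ≤ b0 → (∀ t, t * M ≤ N → t ≤ r) →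
      (C * (q * Y) ^ (d + 2)) ^ ((2 * (q * q + q) + 4) ^ d) ≤ u →
      ∀ (E : Type) (X : ExtSys p q N κ E) (𝒰 : Finset (Fm p (XVar q N E κ))), ClosedFm 𝒰 →
        (∀ φ ∈ 𝒰, φ.depth ≤ d) → (∀ φ ∈ 𝒰, φ.tops.card + 1 ≤ Y) → (∀ j, X.D j ∈ 𝒰) →
        (∀ e, Fm.var (.inr (.inl e)) ∈ 𝒰 → ∀ β, (X.tree e β).depth * M ≤ N) →
        2 ^ κ * (𝒰.card * 2 ^ (Y - 1)) ≤ 16 ^ Y →
        ∀ f₀, ¬ EDer c M X 𝒰 (.or 0 f₀) := by
  classical
  have : Fact p.Prime := ⟨hp⟩
  have : NeZero q := ⟨by omega⟩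
  have hp1 : 1 ≤ p := hp.one_le
  set C1 : ℕ := 20 + 4 * p * (2 * p) ^ d + 8 * (2 * p) ^ d with hC1
  set C : ℕ := 240 * q * (2 * (2 * c + 2 + 1) * C1 + 1) + q * (d + 2) + 32 with hC
  refine ⟨C, by omega, ?_⟩
  intro N Y κ M r b0 u hY hκ hb1 hNu hr hrM hu E X 𝒰 h𝒰 hdepth htops hD hE hcard f₀
  set w : ℕ := 2 * (q * q + q) + 4 with hw
  set k : ℕ := q * Y with hk
  set m : ℕ := C * k ^ (d + 2) with hm
  have hk1 : 1 ≤ k := Nat.mul_pos (by omega) hY
  have hkpow : k ≤ k ^ (d + 2) := Nat.le_self_pow (by omega) k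
  have hmk : C * k ≤ m := Nat.mul_le_mul_left C hkpow
  have hmC : C ≤ m := Nat.le_mul_of_pos_right C (Nat.pow_pos hk1)
  have hm32 : 32 ≤ m := by omega
  have hmk' : k ≤ m := by
    refine le_trans ?_ hmk
    exact Nat.le_mul_of_pos_left k (by omega)
  have hqk : q ≤ k := Nat.le_mul_of_pos_right q hY
  have hmq : q ≤ m := hqk.trans hmk'
  have hm1 : 1 ≤ m := by omega
  -- the sizes
  let Asz : ℕ → ℕ := fun h => if h = 0 then u else m ^ (w ^ (d - h))
  have hAm : ∀ h, 1 ≤ h → m ≤ Asz h := by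
    intro h hh
    simp only [Asz, if_neg (show h ≠ 0 by omega)]
    exact Nat.le_self_pow (by positivity) m
  have hAstep : ∀ h < d, Asz (h + 1) ^ w ≤ Asz h := by
    intro h hh
    have e1 : Asz (h + 1) = m ^ (w ^ (d - (h + 1))) := by
      simp only [Asz, if_neg (show h + 1 ≠ 0 by omega)]
    have e2 : w ^ (d - (h + 1)) * w = w ^ (d - h) := by
      rw [← pow_succ]; congr 1; omega
    rw [e1, ← pow_mul, e2]
    by_cases h0 : h = 0
    · subst h0
      simp only [Asz, if_true, Nat.sub_zero]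
      exact hu
    · simp only [Asz, if_neg h0]
      exact le_rfl
  have hmu : m ≤ u := by
    refine le_trans ?_ hu
    exact Nat.le_self_pow (by positivity) m
  have hAu : ∀ h ≤ d, Asz h ≤ u := by
    intro h hh
    by_cases h0 : h = 0
    · simp only [Asz, h0, if_true]; exact le_rfl
    · simp only [Asz, if_neg h0]
      refine le_trans ?_ hu
      exact Nat.pow_le_pow_right hm1 (Nat.pow_le_pow_right (by omega) (by omega))
  let b : ℕ → ℕ := fun h => b0 + (u - Asz h) / q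
  have hb0 : b 0 = b0 := by simp [b, Asz]
  have hsubN : ∀ x, N - q * (b0 + x) = u - q * x := by
    intro x
    rw [Nat.mul_add]
    omega
  have hstep : ∀ h < d, q * b (h + 1) < N ∧ b h ≤ b (h + 1) ∧
      16 * (2 * k * ((N - q * b (h + 1)) ^ q) ^ q * (N - q * b (h + 1)) ^ q) ≤
        b (h + 1) - b h := by
    intro h hh
    have hm' := hAm (h + 1) (by omega)
    obtain ⟨s1, s2, s3⟩ := num_step (N := u) (q := q) (k := k) (a := Asz (h + 1)) (A := Asz h)
      (by omega) (hm32.trans hm') (hmq.trans hm') (hmk'.trans hm')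
      (hAstep h hh) (hAu h (by omega))
    have e1 : b (h + 1) = b0 + (u - Asz (h + 1)) / q := rfl
    have e2 : b h = b0 + (u - Asz h) / q := rfl
    refine ⟨?_, ?_, ?_⟩
    · rw [e1, Nat.mul_add]
      omega
    · rw [e1, e2]
      omega
    · rw [e1, e2, hsubN]
      refine s3.trans ?_
      omega
  -- the family
  have hfamcard : (famX X 𝒰).card ≤ 16 ^ Y :=
    (famX_card (Y - 1) (fun φ hφ => by have := htops φ hφ; omega)).trans hcard
  have htreecard : 2 * (trees X M 𝒰).card < 32 ^ k := by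
    have h1 := trees_card (X := X) (𝒰 := 𝒰) M
    have h2 : 2 ^ κ * 𝒰.card ≤ 16 ^ Y := by
      refine le_trans ?_ hcard
      exact Nat.mul_le_mul_left _ (Nat.le_mul_of_pos_right _ (Nat.pow_pos (by norm_num)))
    have h3 : 2 * (trees X M 𝒰).card ≤ 4 * 16 ^ Y := by
      calc 2 * (trees X M 𝒰).card ≤ 2 * (2 ^ κ * (2 * 𝒰.card)) := Nat.mul_le_mul_left 2 h1
        _ = 4 * (2 ^ κ * 𝒰.card) := by ring
        _ ≤ 4 * 16 ^ Y := Nat.mul_le_mul_left 4 h2
    have h4 : 4 * 16 ^ Y < 1024 ^ Y := by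
      have h5 : (1024 : ℕ) ^ Y = 64 ^ Y * 16 ^ Y := by rw [← mul_pow]; norm_num
      rw [h5]
      apply Nat.mul_lt_mul_of_pos_right _ (Nat.pow_pos (by norm_num))
      calc 4 < 64 ^ 1 := by norm_num
        _ ≤ 64 ^ Y := Nat.pow_le_pow_right (by norm_num) hY
    have h6 : (1024 : ℕ) ^ Y ≤ 32 ^ k := by
      have h7 : (1024 : ℕ) ^ Y = 32 ^ (2 * Y) := by rw [pow_mul]; norm_num
      rw [h7]
      exact Nat.pow_le_pow_right (by norm_num) (Nat.mul_le_mul_right Y hq)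
    omega
  have hNb0 : N - q * b0 = u := by omega
  obtain ⟨ρ0, r1, r2, r3⟩ := exists_root (q := q) (N := N) (by omega) (b := b0) (m := k) (r := r)
    hb1 (by omega) (by rw [hNb0]; exact hr) (trees X M 𝒰)
    (fun T hT => hrM _ (trees_depth hE T hT)) htreecard
  obtain ⟨ρ, hρ1, hρ0, hρ2, hρ3⟩ := levels (q := q) (k := k) (D := Y) (by omega) hY rfl
    (famX X 𝒰) (famX_closed h𝒰) hfamcard b d ρ0 r1 (by rw [r2, hb0])
    (fun T hT => (r3 T (atm_mem_trees hT)).hasT) hstep d le_rfl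
  have hT : ∀ β, ∀ χ ∈ fam (bk X β) 𝒰, HasT q k χ ρ k := by
    intro β χ hχ
    obtain ⟨φ, hφ, μ, rfl⟩ := exists_of_mem_fam _ hχ
    exact hρ3 _ (mem_famX hφ β μ) ((subst_dep _ (bk_leaf X β) μ φ).trans (hdepth φ hφ))
  have hL : ∀ φ ∈ 𝒰, TreeAx X M φ → ∀ β : Fin κ → Bool, ∃ T : DTree N, Few q T ρ k ∧
      ∀ (π : PS N) (b : Bool), IsPP q π → T.Out π b → Det X β π φ true := by
    intro φ hφ h β
    refine ⟨(h β).choose, Few.mono (r3 _ ?_) hρ0, (h β).choose_spec.2⟩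
    unfold trees
    rw [mem_biUnion]
    refine ⟨β, mem_univ _, mem_union_right _ (mem_image.2 ⟨φ, hφ, ?_⟩)⟩
    unfold g2
    rw [dif_pos h]
  -- the free part
  have hfree : m ≤ N - q * ρ.card ∧ q * ρ.card ≤ N := by
    rw [hρ2]
    by_cases hd0 : d = 0
    · rw [hd0, hb0, hNb0]
      exact ⟨hmu, by omega⟩
    · have h1 : Asz d = m := by
        simp only [Asz, if_neg hd0, Nat.sub_self, pow_zero, pow_one]
      have h2 : q * ((u - m) / q) ≤ u - m := Nat.mul_div_le _ _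
      have h3 : b d = b0 + (u - m) / q := by simp only [b, h1]
      rw [h3, hsubN, Nat.mul_add]
      omega
  -- the graph
  set n : ℕ := m / (4 * q) with hn
  have hYk : Y ≤ k := Nat.le_mul_of_pos_left Y (by omega)
  have hww : wx k p (Y - 1) d κ ≤ C1 * k ^ (d + 2) :=
    wx_le hp1 hk1 le_rfl (by omega) (by omega)
  have hmbig : 240 * q * (2 * (2 * c + 2 + 1) * wx k p (Y - 1) d κ + 1) ≤ m := by
    calc 240 * q * (2 * (2 * c + 2 + 1) * wx k p (Y - 1) d κ + 1)
        ≤ 240 * q * (2 * (2 * c + 2 + 1) * (C1 * k ^ (d + 2)) + 1 * k ^ (d + 2)) := by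
          apply Nat.mul_le_mul_left
          apply Nat.add_le_add
          · exact Nat.mul_le_mul_left _ hww
          · rw [one_mul]; exact Nat.one_le_pow _ _ hk1
      _ = (240 * q * (2 * (2 * c + 2 + 1) * C1 + 1)) * k ^ (d + 2) := by ring
      _ ≤ C * k ^ (d + 2) := Nat.mul_le_mul_right _ (by omega)
  have hn1 : 60 * (2 * (2 * c + 2 + 1) * wx k p (Y - 1) d κ + 1) ≤ n := by
    rw [hn, Nat.le_div_iff_mul_le (by omega)]
    refine le_trans (le_of_eq ?_) hmbig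
    ring
  have hn25 : 25 ≤ n := by omega
  obtain ⟨π, hπ⟩ := exists_expander hn25
  have h4q : 4 * q * n ≤ m := Nat.mul_div_le m (4 * q)
  -- the field
  have hqK : (q : AlgebraicClosure (ZMod p)) ≠ 0 := by
    intro h
    rw [CharP.cast_eq_zero_iff (AlgebraicClosure (ZMod p)) p q] at h
    exact hpq h
  have : NeZero (q : ZMod p) := ⟨by
    intro h
    rw [CharP.cast_eq_zero_iff (ZMod p) p q] at h
    exact hpq h⟩
  obtain ⟨ζ, hζ⟩ := HasEnoughRootsOfUnity.exists_primitiveRoot (AlgebraicClosure (ZMod p)) q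
  have hprim := AddChar.zmodChar_primitive_of_primitive_root q hζ
  refine no_der (Vt := Fin n) (Ed := Fin n × Bool) (ghd π) gtl _ hprim hqK
    (by rw [Fintype.card_fin]; omega) (inc_card π) c d k (Y - 1) κ M hk1 (graph_conn π)
    (graph_exp π hπ ?_) ρ hρ1 ?_ X 𝒰 h𝒰 hdepth ?_ ?_ hT hL (fun _ => hD) f₀
  · have h1 : 60 * (2 * ((2 * c + 2 + 1) * wx k p (Y - 1) d κ)) ≤ n := by
      refine le_trans ?_ hn1
      apply Nat.mul_le_mul_left
      rw [← mul_assoc]
      exact Nat.le_succ _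
    rw [Nat.le_div_iff_mul_le (by norm_num)]
    omega
  · have h1 : Fintype.card (Fin n × Bool) * (2 * (q - 1)) ≤ 4 * q * n := by
      rw [Fintype.card_prod, Fintype.card_fin, Fintype.card_bool]
      calc n * 2 * (2 * (q - 1)) = (q - 1) * (4 * n) := by ring
        _ ≤ q * (4 * n) := Nat.mul_le_mul_right _ (Nat.sub_le q 1)
        _ = 4 * q * n := by ring
    omega
  · intro φ hφ
    have := htops φ hφ
    omega
  · have h1 : q * (2 * k + k * d) ≤ m := by
      calc q * (2 * k + k * d) = q * (d + 2) * k := by ring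
        _ ≤ C * k := Nat.mul_le_mul_right k (by omega)
        _ ≤ m := hmk
    have h2 : q * (ρ.card + 2 * k + k * d) = q * ρ.card + q * (2 * k + k * d) := by ring
    rw [h2]
    omega

end Pool.Agent.J6H7.GX
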