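import Pool.Agent.Helper600R2.Cnt.Sub
import Pool.Agent.J6H7.GX.Levels

/-!
Replacing the `md` subformulas by constants. (Modelled on `Helper600R2.Cnt.Sub`.)
-/

set_option linter.unusedSectionVars false
set_option autoImplicit false

namespace Pool.Agent.J6H7.GX

open Finset Pool.Agent.Helper600R2.Cnt

/-- constants and atoms -/
def IsLeaf {N : ℕ} : MF N → Prop
  | .cst _ => True
  | .atm _ => True
  | _ => False

lemma IsLeaf.dep {N : ℕ} {χ : MF N} (h : IsLeaf χ) : χ.dep = 0 := by
  cases χ with
  | cst b => rfl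
  | atm x => rfl
  | neg φ => exact h.elim
  | or t φs => exact h.elim

variable {p : ℕ} {α : Type} {N : ℕ} (blk : α → MF N)

/-- replacing the maximal `md` subformulas by constants -/
def subst (μ : Fm p α → Bool) : Fm p α → MF N
  | .var a => blk a
  | .neg φ => .neg (subst μ φ)
  | .or t φs => .or t (fun j => subst μ (φs j))
  | .md i t φs => .cst (μ (.md i t φs))

lemma subst_congr {μ μ' : Fm p α → Bool} (φ : Fm p α) (h : ∀ χ ∈ φ.tops, μ χ = μ' χ) :
    subst blk μ φ = subst blk μ' φ := by
  classical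
  induction φ with
  | var a => rfl
  | neg φ ih => simp only [subst]; rw [ih h]
  | or t φs ih =>
    simp only [subst]
    congr 1
    funext j
    apply ih j
    intro χ hχ
    apply h
    simp only [Fm.tops, mem_biUnion, mem_univ, true_and]
    exact ⟨j, hχ⟩
  | md i t φs _ =>
    simp only [subst]
    rw [h _ (by simp [Fm.tops])]

lemma subst_dep (hblk : ∀ a, IsLeaf (blk a)) (μ : Fm p α → Bool) (φ : Fm p α) :
    (subst blk μ φ).dep ≤ φ.depth := by
  induction φ with
  | var a => simp [subst, (hblk a).dep]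
  | neg φ ih => simp only [subst, MF.dep, Fm.depth]; omega
  | or t φs ih =>
    simp only [subst, MF.dep, Fm.depth]
    have : univ.sup (fun j => (subst blk μ (φs j)).dep) ≤ univ.sup (fun j => (φs j).depth) :=
      Finset.sup_mono_fun (fun j _ => ih j)
    omega
  | md i t φs _ => simp [subst, MF.dep]

open Classical in
/-- the family of all formulas obtained from `𝒰` by replacing the maximal `md` subformulas by
constants -/
noncomputable def fam (𝒰 : Finset (Fm p α)) : Finset (MF N) :=
  𝒰.biUnion (fun φ => (φ.tops).powerset.image (fun A => subst blk (fun χ => decide (χ ∈ A)) φ))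

lemma mem_fam {𝒰 : Finset (Fm p α)} {φ : Fm p α} (hφ : φ ∈ 𝒰) (μ : Fm p α → Bool) :
    subst blk μ φ ∈ fam blk 𝒰 := by
  classical
  simp only [fam, mem_biUnion, mem_image, mem_powerset]
  refine ⟨φ, hφ, φ.tops.filter (fun χ => μ χ = true), filter_subset _ _, ?_⟩
  apply subst_congr
  intro χ hχ
  cases hμ : μ χ <;> simp [hμ, hχ]

lemma exists_of_mem_fam {𝒰 : Finset (Fm p α)} {ψ : MF N} (h : ψ ∈ fam blk 𝒰) :
    ∃ φ ∈ 𝒰, ∃ μ, ψ = subst blk μ φ := by
  classical
  simp only [fam, mem_biUnion, mem_image, mem_powerset] at h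
  obtain ⟨φ, hφ, A, _, rfl⟩ := h
  exact ⟨φ, hφ, _, rfl⟩

lemma fam_card (𝒰 : Finset (Fm p α)) (G : ℕ) (hG : ∀ φ ∈ 𝒰, φ.tops.card ≤ G) :
    (fam blk 𝒰).card ≤ 𝒰.card * 2 ^ G := by
  classical
  refine card_biUnion_le.trans ?_
  calc ∑ φ ∈ 𝒰, ((φ.tops).powerset.image
        (fun A => subst blk (fun χ => decide (χ ∈ A)) φ)).card
      ≤ ∑ _φ ∈ 𝒰, 2 ^ G := by
        refine Finset.sum_le_sum (fun φ hφ => card_image_le.trans ?_)
        rw [card_powerset]
        exact Nat.pow_le_pow_right (by norm_num) (hG φ hφ)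
    _ = _ := by rw [Finset.sum_const, smul_eq_mul]

lemma fam_closed (hblk : ∀ a, IsLeaf (blk a)) {𝒰 : Finset (Fm p α)} (h𝒰 : ClosedFm 𝒰) :
    Closed (fam blk 𝒰) := by
  constructor
  · intro ψ hψ
    obtain ⟨φ, hφ, μ, h⟩ := exists_of_mem_fam blk hψ
    cases φ with
    | var a =>
      have h1 := hblk a
      rw [subst] at h
      rw [← h] at h1
      exact h1.elim
    | neg φ' =>
      simp only [subst, MF.neg.injEq] at h
      rw [h]
      exact mem_fam blk (h𝒰.neg φ' hφ) μ
    | or t φs => simp [subst] at h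
    | md i t φs => simp [subst] at h
  · intro t ψs hψ j
    obtain ⟨φ, hφ, μ, h⟩ := exists_of_mem_fam blk hψ
    cases φ with
    | var a =>
      have h1 := hblk a
      rw [subst] at h
      rw [← h] at h1
      exact h1.elim
    | neg φ' => simp [subst] at h
    | or t' φs =>
      simp only [subst] at h
      cases h
      exact mem_fam blk (h𝒰.or t φs hφ j) μ
    | md i t φs => simp [subst] at h

end Pool.Agent.J6H7.GX
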